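import Mathlib

set_option autoImplicit false

open MeasureTheory Metric Set
open scoped RealInnerProductSpace ENNReal

namespace Pool.Agent.H249R2

/-- Euclidean space of dimension `n`. -/
abbrev E (n : ℕ) := EuclideanSpace ℝ (Fin n)

/-- Prepend a coordinate. -/
noncomputable def consE {n : ℕ} (q : ℝ × E n) : E (n + 1) :=
  WithLp.toLp 2 (Fin.cons q.1 (WithLp.ofLp q.2) : Fin (n + 1) → ℝ)

lemma measurePreserving_consE (n : ℕ) :
    MeasurePreserving (consE (n := n)) (volume.prod volume) volume := by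
  have h1 : MeasurePreserving (Prod.map (id : ℝ → ℝ) (@WithLp.ofLp 2 (Fin n → ℝ)))
      (volume.prod volume) (volume.prod volume) :=
    (MeasurePreserving.id _).prod (PiLp.volume_preserving_ofLp (Fin n))
  have h2 := (volume_preserving_piFinSuccAbove (fun _ : Fin (n + 1) => ℝ) 0).symm
  have h3 := PiLp.volume_preserving_toLp (Fin (n + 1))
  have h := h3.comp (h2.comp h1)
  refine (by
    convert! h using 1
    ext q i
    simp only [consE, Function.comp_apply]
    refine Fin.cases ?_ ?_ i <;> simp [MeasurableEquiv.piFinSuccAbove, Fin.insertNthEquiv] )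

@[simp] lemma consE_zero_apply {n : ℕ} (q : ℝ × E n) : consE q 0 = q.1 := by
  simp [consE]

@[simp] lemma consE_succ_apply {n : ℕ} (q : ℝ × E n) (i : Fin n) : consE q i.succ = q.2 i := by
  simp [consE]

@[simp] lemma consE_one_apply {n : ℕ} (q : ℝ × E (n + 1)) : consE q 1 = q.2 0 :=
  consE_succ_apply q 0

lemma norm_consE_sq {n : ℕ} (q : ℝ × E n) : ‖consE q‖ ^ 2 = q.1 ^ 2 + ‖q.2‖ ^ 2 := by
  rw [EuclideanSpace.norm_sq_eq, EuclideanSpace.norm_sq_eq, Fin.sum_univ_succ]
  simp

lemma consE_add {n : ℕ} (q r : ℝ × E n) : consE (q + r) = consE q + consE r := by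
  ext i
  refine Fin.cases ?_ ?_ i <;> simp

lemma consE_smul {n : ℕ} (a : ℝ) (q : ℝ × E n) : consE (a • q) = a • consE q := by
  ext i
  refine Fin.cases ?_ ?_ i <;> simp

/-- The map `(s, c, z) ↦ p + s u + c v + ι z` attached to an orthonormal frame. -/
noncomputable def frameMap {N : ℕ} (b : OrthonormalBasis (Fin (N + 2)) ℝ (E (N + 2)))
    (p : E (N + 2)) (q : ℝ × (ℝ × E N)) : E (N + 2) :=
  p + b.repr.symm (consE (q.1, consE q.2))

/-- The isometric embedding of `E N` as the orthogonal complement of `b 0`, `b 1`. -/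
noncomputable def iota {N : ℕ} (b : OrthonormalBasis (Fin (N + 2)) ℝ (E (N + 2)))
    (z : E N) : E (N + 2) :=
  b.repr.symm (consE (0, consE (0, z)))

lemma measurePreserving_frameMap {N : ℕ} (b : OrthonormalBasis (Fin (N + 2)) ℝ (E (N + 2)))
    (p : E (N + 2)) :
    MeasurePreserving (frameMap b p) (volume.prod (volume.prod volume)) volume := by
  have h1 : MeasurePreserving (Prod.map (id : ℝ → ℝ) (consE (n := N)))
      (volume.prod (volume.prod volume)) (volume.prod volume) :=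
    (MeasurePreserving.id _).prod (measurePreserving_consE N)
  have h2 := measurePreserving_consE (N + 1)
  have h3 := b.measurePreserving_repr_symm
  have h4 := measurePreserving_add_left (volume : Measure (E (N + 2))) p
  exact h4.comp (h3.comp (h2.comp h1))

lemma frameMap_eq {N : ℕ} (b : OrthonormalBasis (Fin (N + 2)) ℝ (E (N + 2)))
    (p : E (N + 2)) (s c : ℝ) (z : E N) :
    frameMap b p (s, (c, z)) = p + s • b 0 + c • b 1 + iota b z := by
  have h0 : b.repr.symm (EuclideanSpace.single 0 1) = b 0 := by simp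
  have h1 : b.repr.symm (EuclideanSpace.single 1 1) = b 1 := by simp
  have : consE (s, consE (c, z)) = s • (EuclideanSpace.single 0 (1 : ℝ) : E (N + 2))
      + c • (EuclideanSpace.single 1 (1 : ℝ) : E (N + 2)) + consE (0, consE (0, z)) := by
    ext i
    refine Fin.cases ?_ ?_ i
    · simp
    · intro i
      refine Fin.cases ?_ ?_ i
      · simp
      · intro i
        simp [Fin.ext_iff]
  unfold frameMap iota
  simp only
  rw [this, map_add, map_add, map_smul, map_smul, h0, h1]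
  abel

lemma iota_norm {N : ℕ} (b : OrthonormalBasis (Fin (N + 2)) ℝ (E (N + 2))) (z : E N) :
    ‖iota b z‖ = ‖z‖ := by
  unfold iota
  rw [LinearIsometryEquiv.norm_map]
  have h := norm_consE_sq (0, consE ((0 : ℝ), z))
  have h' := norm_consE_sq ((0 : ℝ), z)
  simp only at h h'
  have : ‖consE (0, consE ((0 : ℝ), z))‖ ^ 2 = ‖z‖ ^ 2 := by rw [h, h']; ring
  exact (sq_eq_sq₀ (norm_nonneg _) (norm_nonneg _)).1 this

/-- The adjoint of `iota`. -/
noncomputable def iotaAdj {N : ℕ} (b : OrthonormalBasis (Fin (N + 2)) ℝ (E (N + 2)))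
    (u : E (N + 2)) : E N :=
  WithLp.toLp 2 (fun i => b.repr u i.succ.succ)

lemma inner_iota {N : ℕ} (b : OrthonormalBasis (Fin (N + 2)) ℝ (E (N + 2))) (z : E N)
    (u : E (N + 2)) : ⟪iota b z, u⟫ = ⟪z, iotaAdj b u⟫ := by
  unfold iota iotaAdj
  rw [← LinearIsometryEquiv.inner_map_map b.repr, LinearIsometryEquiv.apply_symm_apply]
  simp only [PiLp.inner_apply, RCLike.inner_apply, conj_trivial]
  rw [Fin.sum_univ_succ, Fin.sum_univ_succ]
  simp

lemma norm_iotaAdj_le {N : ℕ} (b : OrthonormalBasis (Fin (N + 2)) ℝ (E (N + 2)))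
    (u : E (N + 2)) : ‖iotaAdj b u‖ ≤ ‖u‖ := by
  rw [← LinearIsometryEquiv.norm_map b.repr u]
  refine le_of_sq_le_sq ?_ (norm_nonneg _)
  rw [EuclideanSpace.norm_sq_eq, EuclideanSpace.norm_sq_eq, Fin.sum_univ_succ, Fin.sum_univ_succ]
  simp only [iotaAdj]
  nlinarith [sq_nonneg ‖b.repr u 0‖, sq_nonneg ‖b.repr u (Fin.succ 0)‖]

lemma inner_iota_zero {N : ℕ} (b : OrthonormalBasis (Fin (N + 2)) ℝ (E (N + 2))) (z : E N) :
    ⟪iota b z, b 0⟫ = 0 := by
  rw [inner_iota]
  have : iotaAdj b (b 0) = 0 := by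
    ext i
    simp [iotaAdj, Fin.ext_iff]
  rw [this, inner_zero_right]

lemma inner_iota_one {N : ℕ} (b : OrthonormalBasis (Fin (N + 2)) ℝ (E (N + 2))) (z : E N) :
    ⟪iota b z, b 1⟫ = 0 := by
  rw [inner_iota]
  have : iotaAdj b (b 1) = 0 := by
    ext i
    simp [iotaAdj, Fin.ext_iff]
  rw [this, inner_zero_right]

lemma norm_frame_sq {N : ℕ} (b : OrthonormalBasis (Fin (N + 2)) ℝ (E (N + 2)))
    (s c : ℝ) (z : E N) : ‖s • b 0 + c • b 1 + iota b z‖ ^ 2 = s ^ 2 + c ^ 2 + ‖z‖ ^ 2 := by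
  have h00 : ⟪b 0, b 0⟫ = (1 : ℝ) := by
    rw [real_inner_self_eq_norm_sq, b.norm_eq_one]; norm_num
  have h11 : ⟪b 1, b 1⟫ = (1 : ℝ) := by
    rw [real_inner_self_eq_norm_sq, b.norm_eq_one]; norm_num
  have h01 : ⟪b 0, b 1⟫ = (0 : ℝ) := by
    refine b.inner_eq_zero ?_
    simp [Fin.ext_iff]
  have hz0 := inner_iota_zero b z
  have hz1 := inner_iota_one b z
  have hzz : ⟪iota b z, iota b z⟫ = ‖z‖ ^ 2 := by
    rw [real_inner_self_eq_norm_sq, iota_norm]
  have hz0' : ⟪b 0, iota b z⟫ = 0 := by rw [real_inner_comm, hz0]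
  have hz1' : ⟪b 1, iota b z⟫ = 0 := by rw [real_inner_comm, hz1]
  have h10 : ⟪b 1, b 0⟫ = (0 : ℝ) := by rw [real_inner_comm, h01]
  rw [← real_inner_self_eq_norm_sq]
  simp only [inner_add_left, inner_add_right, inner_smul_left, inner_smul_right, h00, h11, h01,
    h10, hz0, hz1, hzz, hz0', hz1', conj_trivial]
  ring

/-- Extension of an orthonormal pair to an orthonormal basis. -/
lemma exists_frame {N : ℕ} (u v : E (N + 2)) (hu : ‖u‖ = 1) (hv : ‖v‖ = 1)
    (huv : ⟪u, v⟫ = (0 : ℝ)) :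
    ∃ b : OrthonormalBasis (Fin (N + 2)) ℝ (E (N + 2)), b 0 = u ∧ b 1 = v := by
  classical
  let w : Fin (N + 2) → E (N + 2) := fun i => if i = 0 then u else v
  have h10 : (1 : Fin (N + 2)) ≠ 0 := by simp
  have hw0 : w 0 = u := by simp [w]
  have hw1 : w 1 = v := by simp [w, h10]
  have hw : Orthonormal ℝ (({0, 1} : Set (Fin (N + 2))).domRestrict w) := by
    constructor
    · rintro ⟨i, hi⟩
      rw [Set.domRestrict_apply]
      rcases hi with rfl | hi
      · rw [hw0, hu]
      · rw [Set.mem_singleton_iff] at hi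
        subst hi
        rw [hw1, hv]
    · rintro ⟨i, hi⟩ ⟨j, hj⟩ hij
      have hij' : i ≠ j := fun h => hij (Subtype.ext h)
      rw [Set.domRestrict_apply, Set.domRestrict_apply]
      simp only [Set.mem_insert_iff, Set.mem_singleton_iff] at hi hj
      rcases hi with rfl | rfl <;> rcases hj with rfl | rfl
      · exact absurd rfl hij'
      · rw [hw0, hw1, huv]
      · rw [hw0, hw1, real_inner_comm, huv]
      · exact absurd rfl hij'
  obtain ⟨b, hb⟩ := hw.exists_orthonormalBasis_extension_of_card_eq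
    (by simp : Module.finrank ℝ (E (N + 2)) = Fintype.card (Fin (N + 2)))
  refine ⟨b, ?_, ?_⟩
  · rw [hb 0 (by simp), hw0]
  · rw [hb 1 (by simp), hw1]

end Pool.Agent.H249R2
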