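import Mathlib
import Pool.Agent.H249R2.Frame

set_option autoImplicit false

open MeasureTheory Metric Set
open scoped RealInnerProductSpace ENNReal

namespace Pool.Agent.H249R2

/-- Volume of the unit ball of `E n`. -/
noncomputable def kap (n : ℕ) : ℝ≥0∞ := volume (closedBall (0 : E n) 1)

/-- Volume of the unit ball of `E n` as a real number. -/
noncomputable def kr (n : ℕ) : ℝ := (kap n).toReal

lemma kap_ne_top (n : ℕ) : kap n ≠ ∞ := (measure_closedBall_lt_top).ne

lemma kap_eq (n : ℕ) : kap n = ENNReal.ofReal (kr n) := (ENNReal.ofReal_toReal (kap_ne_top n)).symm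

lemma kap_pos (n : ℕ) : 0 < kap n := measure_closedBall_pos _ _ one_pos

lemma kr_pos (n : ℕ) : 0 < kr n := ENNReal.toReal_pos (kap_pos n).ne' (kap_ne_top n)

lemma volume_closedBall_eq (n : ℕ) (x : E n) {r : ℝ} (hr : 0 ≤ r) :
    volume (closedBall x r) = ENNReal.ofReal (r ^ n) * kap n := by
  rw [Measure.addHaar_closedBall' _ _ hr, finrank_euclideanSpace, Fintype.card_fin]
  rfl

lemma kr_formula (n : ℕ) (hn : 1 ≤ n) :
    kr n = √Real.pi ^ n / Real.Gamma (n / 2 + 1) := by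
  have : Nonempty (Fin n) := ⟨⟨0, hn⟩⟩
  unfold kr kap
  rw [EuclideanSpace.volume_closedBall, Fintype.card_fin]
  rw [ENNReal.ofReal_one, one_pow, one_mul, ENNReal.toReal_ofReal]
  positivity

lemma kr_ratio (n : ℕ) (hn : 1 ≤ n) :
    √((n + 1 : ℝ) / 2 / Real.pi) * kr (n + 1) ≤ kr n := by
  rw [kr_formula n hn, kr_formula (n + 1) (by omega)]
  push_cast
  set x : ℝ := (n + 1 : ℝ) / 2 with hx
  have hxpos : 0 < x := by positivity
  have e1 : (n : ℝ) / 2 + 1 = x + 1 / 2 := by rw [hx]; ring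
  have hconv := Real.Gamma_mul_add_mul_le_rpow_Gamma_mul_rpow_Gamma (s := x) (t := x + 1)
    (a := 1 / 2) (b := 1 / 2) hxpos (by positivity) (by norm_num) (by norm_num) (by norm_num)
  have e2 : (1 / 2 : ℝ) * x + 1 / 2 * (x + 1) = x + 1 / 2 := by ring
  rw [e2] at hconv
  have hG : Real.Gamma (x + 1) = x * Real.Gamma x := Real.Gamma_add_one hxpos.ne'
  have hGx : 0 < Real.Gamma x := Real.Gamma_pos_of_pos hxpos
  have hGx1 : 0 < Real.Gamma (x + 1) := Real.Gamma_pos_of_pos (by positivity)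
  have hGh : 0 < Real.Gamma (x + 1 / 2) := Real.Gamma_pos_of_pos (by positivity)
  have key : √x * Real.Gamma (x + 1 / 2) ≤ Real.Gamma (x + 1) := by
    have h1 : Real.Gamma (x + 1 / 2) ≤ √(Real.Gamma x) * √(Real.Gamma (x + 1)) := by
      rw [Real.sqrt_eq_rpow, Real.sqrt_eq_rpow]; exact hconv
    calc √x * Real.Gamma (x + 1 / 2)
        ≤ √x * (√(Real.Gamma x) * √(Real.Gamma (x + 1))) :=
          mul_le_mul_of_nonneg_left h1 (Real.sqrt_nonneg _)
      _ = √(x * Real.Gamma x) * √(Real.Gamma (x + 1)) := by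
          rw [Real.sqrt_mul hxpos.le]; ring
      _ = Real.Gamma (x + 1) := by
          rw [← hG, Real.mul_self_sqrt hGx1.le]
  rw [e1]
  have hpi : 0 < √Real.pi := Real.sqrt_pos.2 Real.pi_pos
  rw [Real.sqrt_div hxpos.le, pow_succ]
  rw [show √x / √Real.pi * (√Real.pi ^ n * √Real.pi / Real.Gamma (x + 1))
      = √Real.pi ^ n * (√x / Real.Gamma (x + 1)) by field_simp]
  rw [div_eq_mul_inv (√Real.pi ^ n)]
  refine mul_le_mul_of_nonneg_left ?_ (by positivity)
  rw [div_le_iff₀ hGx1, inv_mul_eq_div, le_div_iff₀ hGh]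
  exact key

lemma exists_ratio (A : ℝ) : ∃ N0 : ℕ, ∀ n, N0 ≤ n → A * kr (n + 1) ≤ kr n := by
  obtain ⟨N0, hN0⟩ := exists_nat_ge (2 * Real.pi * A ^ 2)
  refine ⟨N0 + 1, fun n hn => ?_⟩
  refine le_trans (mul_le_mul_of_nonneg_right ?_ (kr_pos _).le) (kr_ratio n (by omega))
  refine Real.le_sqrt_of_sq_le ?_
  rw [le_div_iff₀ Real.pi_pos]
  have : (N0 : ℝ) + 1 ≤ n := by exact_mod_cast hn
  nlinarith [Real.pi_pos]

/-- The unit ball in product coordinates. -/
def ballP (N : ℕ) : Set (ℝ × E N) := {q | q.1 ^ 2 + ‖q.2‖ ^ 2 ≤ 1}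

lemma isClosed_ballP (N : ℕ) : IsClosed (ballP N) :=
  isClosed_le (by fun_prop) continuous_const

lemma volume_ballP (N : ℕ) : (volume.prod volume) (ballP N) = kap (N + 1) := by
  have h := (measurePreserving_consE N).measure_preimage
    (measurableSet_closedBall (x := (0 : E (N + 1))) (ε := 1)).nullMeasurableSet
  rw [kap, ← h]
  congr 1
  ext q
  simp only [ballP, mem_ofPred_eq, mem_preimage, mem_closedBall, dist_zero_right]
  rw [← norm_consE_sq]
  constructor
  · intro h; exact (sq_le_one_iff₀ (norm_nonneg _)).1 h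
  · intro h; exact (sq_le_one_iff₀ (norm_nonneg _)).2 h

/-- Convex hull of two unit balls at distance `l`, in product coordinates. -/
def sausP (N : ℕ) (l : ℝ) : Set (ℝ × E N) :=
  {q | ∃ t, 0 ≤ t ∧ t ≤ l ∧ (q.1 - t) ^ 2 + ‖q.2‖ ^ 2 ≤ 1}

lemma volume_sausP_ge (N : ℕ) (l : ℝ) (hl : 0 ≤ l) :
    kap (N + 1) + ENNReal.ofReal l * kap N ≤ (volume.prod volume) (sausP N l) := by
  set A : Set (ℝ × E N) := {q | q.1 < 0 ∧ q.1 ^ 2 + ‖q.2‖ ^ 2 ≤ 1} with hA
  set B : Set (ℝ × E N) := Ico 0 l ×ˢ closedBall (0 : E N) 1 with hB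
  set C : Set (ℝ × E N) := {q | l ≤ q.1 ∧ (q.1 - l) ^ 2 + ‖q.2‖ ^ 2 ≤ 1} with hC
  set C' : Set (ℝ × E N) := {q | 0 ≤ q.1 ∧ q.1 ^ 2 + ‖q.2‖ ^ 2 ≤ 1} with hC'
  have mA : MeasurableSet A := by
    have : A = {q : ℝ × E N | q.1 < 0} ∩ ballP N := rfl
    rw [this]
    exact (measurableSet_lt measurable_fst measurable_const).inter (isClosed_ballP N).measurableSet
  have mC' : MeasurableSet C' := by
    have : C' = {q : ℝ × E N | 0 ≤ q.1} ∩ ballP N := rfl
    rw [this]
    exact (measurableSet_le measurable_const measurable_fst).inter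
      (isClosed_ballP N).measurableSet
  have mB : MeasurableSet B := measurableSet_Ico.prod measurableSet_closedBall
  have hCC' : C = (fun q : ℝ × E N => (-l, (0 : E N)) + q) ⁻¹' C' := by
    ext q
    simp only [hC, hC', mem_ofPred_eq, mem_preimage, Prod.fst_add, Prod.snd_add, zero_add]
    constructor
    · rintro ⟨h1, h2⟩
      refine ⟨by linarith, ?_⟩
      convert h2 using 3; ring
    · rintro ⟨h1, h2⟩
      refine ⟨by linarith, ?_⟩
      convert h2 using 3; ring
  have mC : MeasurableSet C := by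
    rw [hCC']
    exact mC'.preimage (measurable_const_add _)
  have vC : (volume.prod volume) C = (volume.prod volume) C' := by
    rw [hCC']
    exact measure_preimage_add _ _ _
  have vAC : (volume.prod volume) A + (volume.prod volume) C' = kap (N + 1) := by
    rw [← volume_ballP, ← measure_union _ mC']
    · congr 1
      ext q
      simp only [hA, hC', ballP, mem_union, mem_ofPred_eq]
      constructor
      · rintro (h | h) <;> exact h.2
      · intro h
        rcases lt_or_ge q.1 0 with h1 | h1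
        · exact Or.inl ⟨h1, h⟩
        · exact Or.inr ⟨h1, h⟩
    · rw [Set.disjoint_left]
      rintro q ⟨h1, _⟩ ⟨h2, _⟩
      linarith
  have vB : (volume.prod volume) B = ENNReal.ofReal l * kap N := by
    rw [hB, Measure.prod_prod, Real.volume_Ico, sub_zero]
    rfl
  have hsub : A ∪ (B ∪ C) ⊆ sausP N l := by
    rintro q (⟨h1, h2⟩ | (⟨h1, h2⟩ | ⟨h1, h2⟩))
    · exact ⟨0, le_refl _, hl, by simpa using h2⟩
    · refine ⟨q.1, h1.1, h1.2.le, ?_⟩
      have : ‖q.2‖ ≤ 1 := by simpa using h2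
      simp only [sub_self]
      nlinarith [norm_nonneg q.2]
    · exact ⟨l, hl, le_refl _, h2⟩
  refine le_trans (le_of_eq ?_) (measure_mono hsub)
  rw [measure_union _ (mB.union mC), measure_union _ mC, vC, vB, ← vAC]
  · ring
  · rw [Set.disjoint_left]
    rintro q ⟨h1, _⟩ ⟨h2, _⟩
    exact absurd h1.2 (not_lt.2 h2)
  · rw [Set.disjoint_left]
    rintro q ⟨h1, _⟩ (⟨h2, _⟩ | ⟨h2, _⟩)
    · exact absurd h1 (not_lt.2 h2.1)
    · linarith

lemma volume_strip_ge (N : ℕ) (hN : (127 / 128 : ℝ) ^ N ≤ 1 / 4) (a : E N) (ha : ‖a‖ ≤ 1) :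
    kap N / 4 ≤ volume {z : E N | ‖z‖ ≤ 1 ∧ 0 ≤ ⟪z, a⟫ ∧ ⟪z, a⟫ ≤ (1 / 8 : ℝ)} := by
  set S : Set (E N) := {z : E N | ‖z‖ ≤ 1 ∧ 0 ≤ ⟪z, a⟫ ∧ ⟪z, a⟫ ≤ (1 / 8 : ℝ)} with hS
  set Hp : Set (E N) := {z : E N | ‖z‖ ≤ 1 ∧ 0 ≤ ⟪z, a⟫} with hHp
  set Hm : Set (E N) := {z : E N | ‖z‖ ≤ 1 ∧ ⟪z, a⟫ ≤ 0} with hHm
  have h1 : volume Hm = volume Hp := by
    have : Hm = (fun z => -z) ⁻¹' Hp := by
      ext z
      simp [hHm, hHp, inner_neg_left]
    rw [this]
    have mHp : MeasurableSet Hp := by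
      have : IsClosed Hp := by
        have e1 : IsClosed {z : E N | ‖z‖ ≤ 1} := isClosed_le (by fun_prop) continuous_const
        have e2 : IsClosed {z : E N | 0 ≤ ⟪z, a⟫} := isClosed_le continuous_const (by fun_prop)
        exact e1.inter e2
      exact this.measurableSet
    exact (LinearIsometryEquiv.neg ℝ (E := E N)).measurePreserving.measure_preimage
      mHp.nullMeasurableSet
  have h2 : kap N ≤ 2 * volume Hp := by
    have : closedBall (0 : E N) 1 ⊆ Hp ∪ Hm := by
      intro z hz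
      have hz' : ‖z‖ ≤ 1 := by simpa using hz
      rcases le_total 0 (⟪z, a⟫) with h | h
      · exact Or.inl ⟨hz', h⟩
      · exact Or.inr ⟨hz', h⟩
    calc kap N ≤ volume (Hp ∪ Hm) := measure_mono this
      _ ≤ volume Hp + volume Hm := measure_union_le _ _
      _ = 2 * volume Hp := by rw [h1, two_mul]
  have h3 : volume Hp ≤ volume S + kap N / 4 := by
    have hsub : Hp ⊆ S ∪ closedBall ((1 / 8 : ℝ) • a) (127 / 128) := by
      rintro z ⟨hz1, hz2⟩
      rcases le_or_gt (⟪z, a⟫) (1 / 8 : ℝ) with h | h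
      · exact Or.inl ⟨hz1, hz2, h⟩
      · right
        rw [mem_closedBall, dist_eq_norm]
        have : ‖z - (1 / 8 : ℝ) • a‖ ^ 2 ≤ (127 / 128) ^ 2 := by
          rw [norm_sub_sq_real, inner_smul_right, norm_smul]
          have e : ‖(1 / 8 : ℝ)‖ = 1 / 8 := by norm_num
          rw [e]
          nlinarith [norm_nonneg z, norm_nonneg a]
        exact le_of_sq_le_sq this (by norm_num)
    calc volume Hp ≤ volume S + volume (closedBall ((1 / 8 : ℝ) • a) (127 / 128)) :=
          (measure_mono hsub).trans (measure_union_le _ _)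
      _ ≤ volume S + kap N / 4 := by
          gcongr
          rw [volume_closedBall_eq _ _ (by norm_num)]
          calc ENNReal.ofReal ((127 / 128) ^ N) * kap N ≤ ENNReal.ofReal (1 / 4) * kap N := by
                gcongr
            _ = kap N / 4 := by
                rw [ENNReal.ofReal_div_of_pos (by norm_num)]
                simp only [ENNReal.ofReal_one, ENNReal.ofReal_ofNat]
                rw [mul_comm, ENNReal.div_eq_inv_mul, ENNReal.div_eq_inv_mul, mul_one, mul_comm]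
  have hSfin : volume S ≠ ∞ := by
    refine ne_top_of_le_ne_top (kap_ne_top N) (measure_mono ?_)
    intro z hz
    simpa using hz.1
  have h4 : kap N ≤ 2 * (volume S + kap N / 4) := h2.trans (by gcongr)
  -- convert to reals
  have hS' : volume S = ENNReal.ofReal (volume S).toReal := (ENNReal.ofReal_toReal hSfin).symm
  rw [hS', kap_eq] at h4 ⊢
  set σ := (volume S).toReal with hσ
  have hσ0 : 0 ≤ σ := ENNReal.toReal_nonneg
  have hk := kr_pos N
  have e4 : ENNReal.ofReal (kr N) / 4 = ENNReal.ofReal (kr N / 4) := by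
    rw [ENNReal.ofReal_div_of_pos (by norm_num)]; simp
  rw [e4] at h4 ⊢
  rw [← ENNReal.ofReal_add hσ0 (by positivity),
    show (2 : ℝ≥0∞) = ENNReal.ofReal 2 by simp, ← ENNReal.ofReal_mul (by norm_num),
    ENNReal.ofReal_le_ofReal_iff (by positivity)] at h4
  exact ENNReal.ofReal_le_ofReal (by linarith)

end Pool.Agent.H249R2
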