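import Mathlib
import Pool.Agent.H249R2.Vol

set_option autoImplicit false

open MeasureTheory Metric Set
open scoped RealInnerProductSpace ENNReal

namespace Pool.Agent.H249R2

lemma hull_ball {d n : ℕ} {x : Fin n → E d} {D : Set (E d)} (hD : Convex ℝ D)
    (hball : ∀ i, closedBall (x i) 1 ⊆ D) {y z : E d} (hy : y ∈ convexHull ℝ (range x))
    (hz : ‖z‖ ≤ 1) : y + z ∈ D := by
  have h : convexHull ℝ (range x) ⊆ (fun y => y + z) ⁻¹' D := by
    refine convexHull_min ?_ ?_
    · rintro _ ⟨i, rfl⟩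
      refine hball i ?_
      simpa [mem_closedBall, dist_eq_norm] using hz
    · exact hD.translate_preimage_left z
  exact h hy

lemma exists_perp {N : ℕ} (u : E (N + 2)) (hu : ‖u‖ = 1) :
    ∃ v : E (N + 2), ‖v‖ = 1 ∧ ⟪u, v⟫ = (0 : ℝ) := by
  classical
  have h10 : (1 : Fin (N + 2)) ≠ 0 := by simp
  have hw : Orthonormal ℝ (({0} : Set (Fin (N + 2))).domRestrict (fun _ => u)) := by
    constructor
    · rintro ⟨i, hi⟩
      rw [Set.domRestrict_apply, hu]
    · rintro ⟨i, hi⟩ ⟨j, hj⟩ hij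
      simp only [Set.mem_singleton_iff] at hi hj
      subst hi; subst hj
      exact absurd rfl hij
  obtain ⟨b, hb⟩ := hw.exists_orthonormalBasis_extension_of_card_eq
    (by simp : Module.finrank ℝ (E (N + 2)) = Fintype.card (Fin (N + 2)))
  refine ⟨b 1, b.norm_eq_one 1, ?_⟩
  rw [← hb 0 (by simp)]
  exact b.inner_eq_zero h10.symm

lemma exists_dir {N : ℕ} (u t : E (N + 2)) (hu : ‖u‖ = 1) (ht : ⟪u, t⟫ = (0 : ℝ)) :
    ∃ v : E (N + 2), ‖v‖ = 1 ∧ ⟪u, v⟫ = (0 : ℝ) ∧ t = ‖t‖ • v := by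
  by_cases h : t = 0
  · obtain ⟨v, hv, huv⟩ := exists_perp u hu
    exact ⟨v, hv, huv, by simp [h]⟩
  · have hn : ‖t‖ ≠ 0 := norm_ne_zero_iff.2 h
    refine ⟨‖t‖⁻¹ • t, ?_, ?_, ?_⟩
    · rw [norm_smul, norm_inv, norm_norm, inv_mul_cancel₀ hn]
    · rw [inner_smul_right, ht, mul_zero]
    · rw [smul_smul, mul_inv_cancel₀ hn, one_smul]

/-- Level of a point along the axis `p + ℝ u`. -/
noncomputable def lev {d : ℕ} (p u y : E d) : ℝ := ⟪y - p, u⟫

/-- Offset of a point from the axis `p + ℝ u`. -/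
noncomputable def off {d : ℕ} (p u y : E d) : E d := y - p - lev p u y • u

lemma eq_lev_off {d : ℕ} (p u y : E d) : y = p + lev p u y • u + off p u y := by
  unfold off; abel

lemma inner_off {d : ℕ} (p u y : E d) (hu : ‖u‖ = 1) : ⟪u, off p u y⟫ = (0 : ℝ) := by
  unfold off lev
  rw [inner_sub_right, inner_smul_right, real_inner_self_eq_norm_sq, hu, real_inner_comm]
  ring

lemma dist_axis_sq {d : ℕ} (p u y : E d) (hu : ‖u‖ = 1) (s : ℝ) :
    dist y (p + s • u) ^ 2 = (lev p u y - s) ^ 2 + ‖off p u y‖ ^ 2 := by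
  have h : y - (p + s • u) = (lev p u y - s) • u + off p u y := by
    unfold off; rw [sub_smul]; abel
  rw [dist_eq_norm, h, norm_add_sq_real, inner_smul_left, inner_off p u y hu, norm_smul, hu]
  simp

lemma ofReal_combo {A B C t K1 K0 : ℝ} (hA : 0 ≤ A) (hB : 0 ≤ B) (hC : 0 ≤ C) (ht : 0 ≤ t)
    (h1 : 0 ≤ K1) (h0 : 0 ≤ K0) :
    ENNReal.ofReal (A * (K1 + t * K0) + (B * K1 + C * K1)) =
      ENNReal.ofReal A * (ENNReal.ofReal K1 + ENNReal.ofReal t * ENNReal.ofReal K0)
        + (ENNReal.ofReal B * ENNReal.ofReal K1 + ENNReal.ofReal C * ENNReal.ofReal K1) := by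
  rw [← ENNReal.ofReal_mul ht, ← ENNReal.ofReal_add h1 (mul_nonneg ht h0),
    ← ENNReal.ofReal_mul hA, ← ENNReal.ofReal_mul hB, ← ENNReal.ofReal_mul hC,
    ← ENNReal.ofReal_add (mul_nonneg hB h1) (mul_nonneg hC h1),
    ← ENNReal.ofReal_add (mul_nonneg hA (add_nonneg h1 (mul_nonneg ht h0)))
      (add_nonneg (mul_nonneg hB h1) (mul_nonneg hC h1))]

theorem group_volume {N n k : ℕ} {x : Fin n → E (N + 2)} {D : Set (E (N + 2))}
    (hD : Convex ℝ D) (hDm : MeasurableSet D) (hball : ∀ i, closedBall (x i) 1 ⊆ D)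
    (hk : ∀ (w : E (N + 2)) (J : Finset (Fin n)), (∀ j ∈ J, dist (x j) w < 1) → J.card ≤ k)
    (hκ : 4 * kr (N + 1) ≤ kr N)
    {p u : E (N + 2)} {L : ℝ} (hu : ‖u‖ = 1)
    (hax : ∀ s, 0 ≤ s → s ≤ L → p + s • u ∈ convexHull ℝ (range x))
    {a b : ℝ} (ha : 0 ≤ a) (hb : b ≤ L)
    (S : Finset (Fin n)) (hS : S.card = k + 1)
    (hlev : ∀ j ∈ S, a ≤ lev p u (x j) ∧ lev p u (x j) ≤ b)
    (hoff : ∀ j ∈ S, ‖off p u (x j)‖ ≤ 1 / 2) :
    ENNReal.ofReal (2 * kr (N + 1)) ≤
      volume (D ∩ {w | a < lev p u w ∧ lev p u w < b}) := by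
  have hSne : S.Nonempty := by
    rw [← Finset.card_pos, hS]; omega
  obtain ⟨j, hjS, hjmax⟩ := Finset.exists_max_image S (fun j => ‖off p u (x j)‖) hSne
  set τ := ‖off p u (x j)‖ with hτ
  have hτ0 : 0 ≤ τ := norm_nonneg _
  have hτ1 : τ ≤ 1 / 2 := hoff j hjS
  set s0 := lev p u (x j) with hs0
  have hs0a : a ≤ s0 := (hlev j hjS).1
  have hs0b : s0 ≤ b := (hlev j hjS).2
  -- the length of the interval
  have hΔ : 1 ≤ ((b - a) / 2) ^ 2 + τ ^ 2 := by
    by_contra hcon
    push Not at hcon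
    have := hk (p + ((a + b) / 2) • u) S (fun i hi => by
      have h1 := dist_axis_sq p u (x i) hu ((a + b) / 2)
      have h2 := (hlev i hi).1
      have h3 := (hlev i hi).2
      have h4 := hjmax i hi
      have h5 : (lev p u (x i) - (a + b) / 2) ^ 2 ≤ ((b - a) / 2) ^ 2 := by
        nlinarith
      have h6 : ‖off p u (x i)‖ ^ 2 ≤ τ ^ 2 := by
        have := norm_nonneg (off p u (x i))
        nlinarith
      have h7 : dist (x i) (p + ((a + b) / 2) • u) ^ 2 < 1 := by linarith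
      exact (sq_lt_one_iff₀ dist_nonneg).1 h7)
    omega
  have hab : a ≤ b := hs0a.trans hs0b
  have hlen : 2 * (1 - τ ^ 2) ≤ b - a := by
    have h0 : τ ^ 2 ≤ 1 := by nlinarith
    have h0' : 0 ≤ τ ^ 2 * (1 - τ ^ 2) := mul_nonneg (sq_nonneg _) (by linarith)
    have h1 : (1 - τ ^ 2) ^ 2 ≤ ((b - a) / 2) ^ 2 := by
      have e : (1 - τ ^ 2) ^ 2 = (1 - τ ^ 2) - τ ^ 2 * (1 - τ ^ 2) := by ring
      rw [e]; linarith
    have h2 : 1 - τ ^ 2 ≤ (b - a) / 2 := le_of_sq_le_sq h1 (by linarith)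
    linarith
  obtain ⟨v, hv, huv, htv⟩ := exists_dir u (off p u (x j)) hu (inner_off p u (x j) hu)
  obtain ⟨B, hB0, hB1⟩ := exists_frame u v hu hv huv
  set T := frameMap B p with hT
  set a' := (a + s0) / 2 with ha'
  set b' := (s0 + b) / 2 with hb'
  have hTlev : ∀ s c z, lev p u (T (s, (c, z))) = s := by
    intro s c z
    unfold lev
    rw [hT, frameMap_eq, hB0, hB1]
    have : p + s • u + c • v + iota B z - p = s • u + c • v + iota B z := by abel
    rw [this, inner_add_left, inner_add_left, inner_smul_left, inner_smul_left,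
      real_inner_self_eq_norm_sq, hu, real_inner_comm, huv]
    have := inner_iota_zero B z
    rw [hB0] at this
    rw [this]
    simp
  have hmem : ∀ s t c z, p + s • u + t • v ∈ convexHull ℝ (range x) →
      (c - t) ^ 2 + ‖z‖ ^ 2 ≤ 1 → T (s, (c, z)) ∈ D := by
    intro s t c z h1 h2
    have e : T (s, (c, z)) = (p + s • u + t • v) + ((0 : ℝ) • B 0 + (c - t) • B 1 + iota B z) := by
      rw [hT, frameMap_eq, hB0, hB1, sub_smul]
      simp only [zero_smul]
      abel
    rw [e]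
    refine hull_ball hD hball h1 ?_
    have := norm_frame_sq B 0 (c - t) z
    have h3 : ‖(0 : ℝ) • B 0 + (c - t) • B 1 + iota B z‖ ^ 2 ≤ 1 := by rw [this]; linarith
    exact (sq_le_one_iff₀ (norm_nonneg _)).1 h3
  have haxis : ∀ s, a ≤ s → s ≤ b → p + s • u + (0 : ℝ) • v ∈ convexHull ℝ (range x) := by
    intro s h1 h2
    rw [zero_smul, add_zero]
    exact hax s (ha.trans h1) (h2.trans hb)
  have hthick : ∀ s t, a' < s → s < b' → 0 ≤ t → t ≤ τ / 2 →
      p + s • u + t • v ∈ convexHull ℝ (range x) := by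
    intro s t h1 h2 h3 h4
    have hxj : x j ∈ convexHull ℝ (range x) := subset_convexHull _ _ ⟨j, rfl⟩
    rcases eq_or_lt_of_le hτ0 with h0 | h0
    · have : t = 0 := by rw [← h0] at h4; linarith
      rw [this]
      refine haxis s ?_ ?_ <;> linarith
    · set ω := t / τ with hω
      have hω0 : 0 ≤ ω := div_nonneg h3 hτ0
      have hω1 : ω ≤ 1 / 2 := by rw [hω, div_le_iff₀ h0]; linarith
      set s' := (s - ω * s0) / (1 - ω) with hs'
      have h1ω : 0 < 1 - ω := by linarith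
      have hs'a : a ≤ s' := by
        rw [hs', le_div_iff₀ h1ω]
        nlinarith
      have hs'b : s' ≤ b := by
        rw [hs', div_le_iff₀ h1ω]
        nlinarith
      have hconv := convex_convexHull ℝ (range x) (hax s' (ha.trans hs'a) (hs'b.trans hb)) hxj
        h1ω.le hω0 (by ring)
      convert hconv using 1
      rw [eq_lev_off p u (x j), ← hs0, htv, ← hτ]
      have e1 : (1 - ω) * s' + ω * s0 = s := by
        rw [hs', mul_div_cancel₀ _ h1ω.ne']; ring
      have e2 : ω * τ = t := by rw [hω, div_mul_cancel₀ _ h0.ne']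
      rw [← e1, ← e2]
      simp only [smul_add, smul_smul, add_smul, sub_smul, one_smul, sub_mul, one_mul]
      abel
  -- the rectangles
  set R1 : Set (ℝ × (ℝ × E N)) := Ioo a a' ×ˢ ballP N with hR1
  set R2 : Set (ℝ × (ℝ × E N)) := Ioo a' b' ×ˢ sausP N (τ / 2) with hR2
  set R3 : Set (ℝ × (ℝ × E N)) := Ioo b' b ×ˢ ballP N with hR3
  have hsub : R2 ∪ (R1 ∪ R3) ⊆ T ⁻¹' (D ∩ {w | a < lev p u w ∧ lev p u w < b}) := by
    rintro ⟨s, c, z⟩ (⟨h1, h2⟩ | (⟨h1, h2⟩ | ⟨h1, h2⟩))
    · obtain ⟨t, ht0, ht1, ht2⟩ := h2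
      simp only [mem_Ioo] at h1
      refine ⟨hmem s t c z (hthick s t h1.1 h1.2 ht0 ht1) ht2, ?_, ?_⟩
      · rw [hTlev]; linarith
      · rw [hTlev]; linarith
    · simp only [mem_Ioo] at h1
      refine ⟨hmem s 0 c z (haxis s (by linarith) (by linarith)) ?_, ?_, ?_⟩
      · rw [sub_zero]; exact h2
      · rw [hTlev]; linarith
      · rw [hTlev]; linarith
    · simp only [mem_Ioo] at h1
      refine ⟨hmem s 0 c z (haxis s (by linarith) (by linarith)) ?_, ?_, ?_⟩
      · rw [sub_zero]; exact h2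
      · rw [hTlev]; linarith
      · rw [hTlev]; linarith
  have hmeas : MeasurableSet (D ∩ {w | a < lev p u w ∧ lev p u w < b}) := by
    have hc : Continuous (lev p u) := by unfold lev; fun_prop
    refine hDm.inter ?_
    exact ((isOpen_lt continuous_const hc).inter (isOpen_lt hc continuous_const)).measurableSet
  rw [← (measurePreserving_frameMap B p).measure_preimage hmeas.nullMeasurableSet]
  refine le_trans ?_ (measure_mono hsub)
  have mP : MeasurableSet (ballP N) := (isClosed_ballP N).measurableSet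
  rw [measure_union, measure_union]
  · rw [hR1, hR2, hR3, Measure.prod_prod, Measure.prod_prod, Measure.prod_prod, Real.volume_Ioo,
      Real.volume_Ioo, Real.volume_Ioo, volume_ballP]
    have hsaus := volume_sausP_ge N (τ / 2) (by positivity)
    calc ENNReal.ofReal (2 * kr (N + 1))
        ≤ ENNReal.ofReal ((b' - a') * (kr (N + 1) + τ / 2 * kr N)
            + ((a' - a) * kr (N + 1) + (b - b') * kr (N + 1))) := by
          refine ENNReal.ofReal_le_ofReal ?_
          have hk1 := kr_pos (N + 1)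
          have hk0 := kr_pos N
          have e : (b' - a') * (kr (N + 1) + τ / 2 * kr N)
            + ((a' - a) * kr (N + 1) + (b - b') * kr (N + 1))
            = (b - a) * kr (N + 1) + (b - a) * τ / 4 * kr N := by
            rw [ha', hb']; ring
          rw [e]
          have h1 : (b - a) * τ / 4 * (4 * kr (N + 1)) ≤ (b - a) * τ / 4 * kr N := by
            refine mul_le_mul_of_nonneg_left hκ ?_
            have : 0 ≤ b - a := by linarith
            positivity
          have h2 : 2 ≤ (b - a) * (1 + τ) := by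
            have : 2 * (1 - τ ^ 2) * (1 + τ) ≤ (b - a) * (1 + τ) :=
              mul_le_mul_of_nonneg_right hlen (by linarith)
            nlinarith [mul_nonneg hτ0 (by linarith : (0 : ℝ) ≤ 1 / 2 - τ),
              mul_nonneg (mul_nonneg hτ0 hτ0) (by linarith : (0 : ℝ) ≤ 1 / 2 - τ)]
          nlinarith
      _ = ENNReal.ofReal (b' - a') * (kap (N + 1) + ENNReal.ofReal (τ / 2) * kap N)
            + (ENNReal.ofReal (a' - a) * kap (N + 1) + ENNReal.ofReal (b - b') * kap (N + 1)) := by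
          have q1 : 0 ≤ b' - a' := by rw [ha', hb']; linarith
          have q2 : 0 ≤ a' - a := by rw [ha']; linarith
          have q3 : 0 ≤ b - b' := by rw [hb']; linarith
          have hk1 := (kr_pos (N + 1)).le
          have hk0 := (kr_pos N).le
          rw [kap_eq (N + 1), kap_eq N]
          exact ofReal_combo q1 q2 q3 (by positivity) hk1 hk0
      _ ≤ _ := by gcongr
  · rw [Set.disjoint_left]
    rintro ⟨s, c, z⟩ ⟨h1, _⟩ ⟨h2, _⟩
    simp only [mem_Ioo] at h1 h2
    linarith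
  · exact measurableSet_Ioo.prod mP
  · rw [Set.disjoint_left]
    rintro ⟨s, c, z⟩ ⟨h1, _⟩ (⟨h2, _⟩ | ⟨h2, _⟩)
    · simp only [mem_Ioo] at h1 h2
      linarith
    · simp only [mem_Ioo] at h1 h2
      linarith
  · exact (measurableSet_Ioo.prod mP).union (measurableSet_Ioo.prod mP)

end Pool.Agent.H249R2
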