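import Mathlib
import Pool.Agent.H249R2.Group

set_option autoImplicit false

open MeasureTheory Metric Set
open scoped RealInnerProductSpace ENNReal

namespace Pool.Agent.H249R2

lemma continuous_lev {d : ℕ} (p u : E d) : Continuous (lev p u) := by unfold lev; fun_prop

lemma measurableSet_slab {d : ℕ} {D : Set (E d)} (hDm : MeasurableSet D) (p u : E d) (a b : ℝ) :
    MeasurableSet (D ∩ {w | a < lev p u w ∧ lev p u w < b}) := by
  have hc := continuous_lev p u
  refine hDm.inter ?_
  exact ((isOpen_lt continuous_const hc).inter (isOpen_lt hc continuous_const)).measurableSet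

theorem chain_volume {N n k : ℕ} {x : Fin n → E (N + 2)} {D : Set (E (N + 2))}
    (hD : Convex ℝ D) (hDm : MeasurableSet D) (hball : ∀ i, closedBall (x i) 1 ⊆ D)
    (hk : ∀ (w : E (N + 2)) (J : Finset (Fin n)), (∀ j ∈ J, dist (x j) w < 1) → J.card ≤ k)
    (hκ : 4 * kr (N + 1) ≤ kr N)
    {p u : E (N + 2)} {L : ℝ} (hu : ‖u‖ = 1)
    (hax : ∀ s, 0 ≤ s → s ≤ L → p + s • u ∈ convexHull ℝ (range x))
    {a b : ℝ} (ha : 0 ≤ a) (hb : b ≤ L)
    (A : Finset (Fin n))
    (hlev : ∀ j ∈ A, a ≤ lev p u (x j) ∧ lev p u (x j) ≤ b)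
    (hoff : ∀ j ∈ A, ‖off p u (x j)‖ ≤ 1 / 2) :
    (((A.card - 1) / k : ℕ) : ℝ≥0∞) * ENNReal.ofReal (2 * kr (N + 1)) ≤
      volume (D ∩ {w | a < lev p u w ∧ lev p u w < b}) := by
  classical
  rcases Nat.eq_zero_or_pos A.card with h0 | hm
  · simp [h0]
  set m := A.card with hmdef
  let e : Fin m ≃ A := A.equivFin.symm
  let f : Fin m → ℝ := fun i => lev p u (x (e i))
  let π := Tuple.sort f
  have hmono : Monotone (f ∘ π) := Tuple.monotone_sort f
  let c : ℕ → Fin n := fun i => (e (π ⟨min i (m - 1), by omega⟩)).1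
  have hcA : ∀ i, c i ∈ A := fun i => (e (π ⟨min i (m - 1), by omega⟩)).2
  let g : ℕ → ℝ := fun i => lev p u (x (c i))
  have hg : Monotone g := by
    intro i i' hii
    have : (⟨min i (m - 1), by omega⟩ : Fin m) ≤ ⟨min i' (m - 1), by omega⟩ := by
      rw [Fin.mk_le_mk]; omega
    exact hmono this
  have hcinj : ∀ i i', i ≤ m - 1 → i' ≤ m - 1 → c i = c i' → i = i' := by
    intro i i' hi hi' h
    have h1 := e.injective (Subtype.ext h)
    have h2 := π.injective h1
    rw [Fin.mk.injEq] at h2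
    omega
  set J := (m - 1) / k with hJ
  have hJk : J * k ≤ m - 1 := Nat.div_mul_le_self _ _
  let slab : ℕ → Set (E (N + 2)) :=
    fun j => D ∩ {w | g (j * k) < lev p u w ∧ lev p u w < g ((j + 1) * k)}
  have hslab : ∀ j ∈ Finset.range J, ENNReal.ofReal (2 * kr (N + 1)) ≤ volume (slab j) := by
    intro j hj
    rw [Finset.mem_range] at hj
    have hjk : (j + 1) * k ≤ m - 1 := (Nat.mul_le_mul_right k hj).trans hJk
    have hjk' : (j + 1) * k = j * k + k := by ring
    refine group_volume hD hDm hball hk hκ hu hax (ha.trans (hlev _ (hcA (j * k))).1)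
      ((hlev _ (hcA ((j + 1) * k))).2.trans hb)
      ((Finset.range (k + 1)).image (fun t => c (j * k + t))) ?_ ?_ ?_
    · rw [Finset.card_image_of_injOn, Finset.card_range]
      intro t ht t' ht' h
      simp only [Finset.coe_range, mem_Iio] at ht ht'
      have := hcinj _ _ (by omega) (by omega) h
      omega
    · intro i hi
      rw [Finset.mem_image] at hi
      obtain ⟨t, ht, rfl⟩ := hi
      rw [Finset.mem_range] at ht
      exact ⟨hg (by omega), hg (by omega)⟩
    · intro i hi
      rw [Finset.mem_image] at hi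
      obtain ⟨t, ht, rfl⟩ := hi
      exact hoff _ (hcA _)
  have hdisj : Set.PairwiseDisjoint (↑(Finset.range J)) slab := by
    have key : ∀ j j', j < j' → Disjoint (slab j) (slab j') := by
      intro j j' hjj
      rw [Set.disjoint_left]
      rintro w ⟨_, _, h1⟩ ⟨_, h2, _⟩
      have : g ((j + 1) * k) ≤ g (j' * k) := hg (Nat.mul_le_mul_right k hjj)
      linarith
    intro j _ j' _ hne
    rcases lt_or_gt_of_ne hne with h | h
    · exact key j j' h
    · exact (key j' j h).symm
  have hunion := measure_biUnion_finset (μ := volume) hdisj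
    (fun j _ => measurableSet_slab hDm p u _ _)
  calc ((J : ℕ) : ℝ≥0∞) * ENNReal.ofReal (2 * kr (N + 1))
      = ∑ j ∈ Finset.range J, ENNReal.ofReal (2 * kr (N + 1)) := by
        rw [Finset.sum_const, Finset.card_range, nsmul_eq_mul]
    _ ≤ ∑ j ∈ Finset.range J, volume (slab j) := Finset.sum_le_sum hslab
    _ = volume (⋃ j ∈ Finset.range J, slab j) := hunion.symm
    _ ≤ _ := by
        refine measure_mono ?_
        intro w hw
        simp only [mem_iUnion] at hw
        obtain ⟨j, hj, hwD, h1, h2⟩ := hw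
        exact ⟨hwD, lt_of_le_of_lt (hlev _ (hcA (j * k))).1 h1,
          lt_of_lt_of_le h2 (hlev _ (hcA ((j + 1) * k))).2⟩

end Pool.Agent.H249R2
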