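import Mathlib
import Pool.Agent.H249R2.Chain

set_option autoImplicit false

open MeasureTheory Metric Set
open scoped RealInnerProductSpace ENNReal

namespace Pool.Agent.H249R2

lemma kap_eq_center (d : ℕ) (p : E d) : volume (closedBall p 1) = kap d := by
  rw [volume_closedBall_eq d p zero_le_one]; simp

lemma lev_add_smul {d : ℕ} (p u w : E d) (hu : ‖u‖ = 1) (L : ℝ) :
    lev p u (w + L • u) = lev p u w + L := by
  unfold lev
  rw [show w + L • u - p = (w - p) + L • u by abel, inner_add_left, inner_smul_left,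
    real_inner_self_eq_norm_sq, hu]
  simp

theorem caps_volume {d : ℕ} {D : Set (E d)} {p u : E d} {L : ℝ}
    (hu : ‖u‖ = 1) (hp1 : closedBall p 1 ⊆ D) (hq1 : closedBall (p + L • u) 1 ⊆ D) :
    kap d ≤ volume (D ∩ {w | lev p u w < 0}) + volume (D ∩ {w | L ≤ lev p u w}) := by
  have hc := continuous_lev p u
  have h1 : closedBall p 1 ⊆ (D ∩ {w | lev p u w < 0}) ∪ (closedBall p 1 ∩ {w | 0 ≤ lev p u w}) := by
    intro w hw
    rcases lt_or_ge (lev p u w) 0 with h | h
    · exact Or.inl ⟨hp1 hw, h⟩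
    · exact Or.inr ⟨hw, h⟩
  have h2 : closedBall p 1 ∩ {w | 0 ≤ lev p u w} ⊆
      (fun w => w + L • u) ⁻¹' (D ∩ {w | L ≤ lev p u w}) := by
    rintro w ⟨hw1, hw2⟩
    refine ⟨hq1 ?_, ?_⟩
    · rw [mem_closedBall, dist_add_right]; exact hw1
    · simp only [mem_ofPred_eq] at hw2 ⊢
      rw [lev_add_smul p u w hu L]; linarith
  calc kap d = volume (closedBall p 1) := (kap_eq_center d p).symm
    _ ≤ volume (D ∩ {w | lev p u w < 0}) + volume (closedBall p 1 ∩ {w | 0 ≤ lev p u w}) :=
        (measure_mono h1).trans (measure_union_le _ _)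
    _ ≤ volume (D ∩ {w | lev p u w < 0}) +
          volume ((fun w => w + L • u) ⁻¹' (D ∩ {w | L ≤ lev p u w})) := by gcongr
    _ = _ := by rw [measure_preimage_add_right]

/-- Finite families of sets with bounded overlap. -/
lemma sum_measure_le_mult {α ι : Type*} [MeasurableSpace α] (μ : Measure α)
    (S : Finset ι) (U : ι → Set α) (M : Set α) (k : ℕ)
    (hU : ∀ j ∈ S, MeasurableSet (U j)) (hM : MeasurableSet M) (hsub : ∀ j ∈ S, U j ⊆ M)
    (hmult : ∀ w, ∀ J ⊆ S, (∀ j ∈ J, w ∈ U j) → J.card ≤ k) :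
    ∑ j ∈ S, μ (U j) ≤ k * μ M := by
  classical
  have h1 : ∑ j ∈ S, μ (U j) = ∫⁻ w, ∑ j ∈ S, (U j).indicator (fun _ => (1 : ℝ≥0∞)) w ∂μ := by
    rw [lintegral_finsetSum]
    · refine Finset.sum_congr rfl fun j hj => ?_
      rw [lintegral_indicator (hU j hj)]; simp
    · intro j hj
      exact measurable_const.indicator (hU j hj)
  have h2 : (k : ℝ≥0∞) * μ M = ∫⁻ w, M.indicator (fun _ => (k : ℝ≥0∞)) w ∂μ := by
    rw [lintegral_indicator hM]; simp
  rw [h1, h2]
  refine lintegral_mono fun w => ?_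
  have h3 : ∑ j ∈ S, (U j).indicator (fun _ => (1 : ℝ≥0∞)) w
      = ((S.filter (fun j => w ∈ U j)).card : ℝ≥0∞) := by
    rw [Finset.card_filter]
    push_cast
    refine Finset.sum_congr rfl fun j _ => ?_
    simp only [Set.indicator_apply]
  simp only
  rw [h3]
  by_cases hw : w ∈ M
  · rw [Set.indicator_of_mem hw]
    have := hmult w (S.filter (fun j => w ∈ U j)) (Finset.filter_subset _ _)
      (fun j hj => (Finset.mem_filter.1 hj).2)
    exact_mod_cast this
  · have : S.filter (fun j => w ∈ U j) = ∅ := by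
      rw [Finset.filter_eq_empty_iff]
      intro j hj hwj
      exact hw (hsub j hj hwj)
    rw [this]; simp

end Pool.Agent.H249R2
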