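import Mathlib
import Pool.Agent.H249R2.Caps

set_option autoImplicit false

open MeasureTheory Metric Set
open scoped RealInnerProductSpace ENNReal

namespace Pool.Agent.H249R2

/-- Points within distance `r` of at least `k + 1` centres. -/
def bad {d n : ℕ} (x : Fin n → E d) (k : ℕ) (r : ℝ) : Set (E d) :=
  {w | ∃ J : Finset (Fin n), J.card = k + 1 ∧ ∀ j ∈ J, dist (x j) w ≤ r}

lemma isClosed_bad {d n : ℕ} (x : Fin n → E d) (k : ℕ) (r : ℝ) : IsClosed (bad x k r) := by
  have h : bad x k r = ⋃ J ∈ (Finset.univ.powersetCard (k + 1) : Finset (Finset (Fin n))),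
      ⋂ j ∈ J, closedBall (x j) r := by
    ext w
    simp only [bad, mem_ofPred_eq, mem_iUnion, mem_iInter, mem_closedBall,
      Finset.mem_powersetCard, Finset.subset_univ, true_and, exists_prop]
    constructor
    · rintro ⟨J, hJ, h⟩
      exact ⟨J, hJ, fun j hj => by rw [dist_comm]; exact h j hj⟩
    · rintro ⟨J, hJ, h⟩
      exact ⟨J, hJ, fun j hj => by rw [dist_comm]; exact h j hj⟩
  rw [h]
  exact isClosed_biUnion_finset (fun J _ => isClosed_biInter fun j _ => isClosed_closedBall)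

lemma KJ_volume {d n k : ℕ} {x : Fin n → E d}
    (hk : ∀ (w : E d) (J : Finset (Fin n)), (∀ j ∈ J, dist (x j) w < 1) → J.card ≤ k)
    {r η : ℝ} (hr : r ^ 2 ≤ 1 + η ^ 2) (hη : 0 ≤ η) (J : Finset (Fin n))
    (hJ : J.card = k + 1) :
    volume (⋂ j ∈ J, closedBall (x j) r) ≤ ENNReal.ofReal ((2 * η) ^ d) * kap d := by
  rcases Set.eq_empty_or_nonempty (⋂ j ∈ J, closedBall (x j) r) with h0 | ⟨w₀, hw₀⟩
  · rw [h0]; simp
  · rw [← volume_closedBall_eq d w₀ (by positivity)]
    refine measure_mono ?_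
    intro w hw
    simp only [mem_iInter, mem_closedBall] at hw hw₀
    rw [mem_closedBall]
    by_contra hcon
    push Not at hcon
    have := hk ((1 / 2 : ℝ) • (w + w₀)) J (fun j hj => by
      have h1 := parallelogram_law_with_norm ℝ (x j - w) (x j - w₀)
      have h2 : dist w (x j) ≤ r := hw j hj
      have h3 : dist w₀ (x j) ≤ r := hw₀ j hj
      rw [dist_comm, dist_eq_norm] at h2 h3
      have h4 : ‖(x j - w) - (x j - w₀)‖ = dist w w₀ := by
        rw [dist_eq_norm, ← norm_neg]; congr 1; abel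
      have h5 : ‖(x j - w) + (x j - w₀)‖ = 2 * dist (x j) ((1 / 2 : ℝ) • (w + w₀)) := by
        have : (x j - w) + (x j - w₀) = (2 : ℝ) • (x j - (1 / 2 : ℝ) • (w + w₀)) := by
          rw [smul_sub, smul_smul, two_smul]
          norm_num
          abel
        rw [this, norm_smul, dist_eq_norm]
        norm_num
      rw [h4, h5] at h1
      have h6 := norm_nonneg (x j - w)
      have h7 := norm_nonneg (x j - w₀)
      have h8 : (0 : ℝ) ≤ dist (x j) ((1 / 2 : ℝ) • (w + w₀)) := dist_nonneg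
      have h9 : dist (x j) ((1 / 2 : ℝ) • (w + w₀)) ^ 2 < 1 := by nlinarith
      exact (sq_lt_one_iff₀ h8).1 h9)
    omega

lemma near_card {N n k : ℕ} {x : Fin n → E (N + 2)}
    (hk : ∀ (w : E (N + 2)) (J : Finset (Fin n)), (∀ j ∈ J, dist (x j) w < 1) → J.card ≤ k)
    (i : Fin n) :
    (Finset.univ.filter (fun j => dist (x j) (x i) ≤ 3)).card ≤ k * 4 ^ (N + 2) := by
  classical
  set S := Finset.univ.filter (fun j => dist (x j) (x i) ≤ 3) with hS
  have h1 := sum_measure_le_mult (volume : Measure (E (N + 2))) S (fun j => ball (x j) 1)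
    (closedBall (x i) 4) k (fun j _ => measurableSet_ball) measurableSet_closedBall
    (fun j hj => by
      intro w hw
      have h2 : dist (x j) (x i) ≤ 3 := (Finset.mem_filter.1 hj).2
      have h3 : dist w (x j) < 1 := hw
      rw [mem_closedBall]
      linarith [dist_triangle w (x j) (x i)])
    (fun w J _ hJ => hk w J (fun j hj => by
      have := hJ j hj
      rw [mem_ball, dist_comm] at this
      exact this))
  have h2 : ∀ j ∈ S, volume (ball (x j) (1 : ℝ)) = kap (N + 2) := by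
    intro j _
    rw [← kap_eq_center (N + 2) (x j)]
    exact (Measure.addHaar_closedBall_eq_addHaar_ball _ _ _).symm
  rw [Finset.sum_congr rfl h2, Finset.sum_const, nsmul_eq_mul,
    volume_closedBall_eq _ _ (by norm_num), ← mul_assoc] at h1
  have h3 := (ENNReal.mul_le_mul_iff_left (kap_pos (N + 2)).ne' (kap_ne_top (N + 2))).1 h1
  have h4 : ENNReal.ofReal (4 ^ (N + 2)) = ((4 ^ (N + 2) : ℕ) : ℝ≥0∞) := by
    rw [← ENNReal.ofReal_natCast]
    push_cast
    rfl
  rw [h4] at h3
  exact_mod_cast h3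

lemma bad_volume {N n k : ℕ} {x : Fin n → E (N + 2)}
    (hk : ∀ (w : E (N + 2)) (J : Finset (Fin n)), (∀ j ∈ J, dist (x j) w < 1) → J.card ≤ k)
    (i : Fin n) {r η : ℝ} (hr : r ^ 2 ≤ 1 + η ^ 2) (hη : 0 ≤ η) (hr2 : r ≤ 3 / 2) :
    volume (bad x k r ∩ closedBall (x i) r) ≤
      (((k * 4 ^ (N + 2)) ^ (k + 1) : ℕ) : ℝ≥0∞) *
        (ENNReal.ofReal ((2 * η) ^ (N + 2)) * kap (N + 2)) := by
  classical
  set S := Finset.univ.filter (fun j => dist (x j) (x i) ≤ 3) with hS
  have hsub : bad x k r ∩ closedBall (x i) r ⊆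
      ⋃ J ∈ S.powersetCard (k + 1), ⋂ j ∈ J, closedBall (x j) r := by
    rintro w ⟨⟨J, hJ, hJw⟩, hwi⟩
    simp only [mem_iUnion, mem_iInter, exists_prop]
    refine ⟨J, ?_, ?_⟩
    · rw [Finset.mem_powersetCard]
      refine ⟨?_, hJ⟩
      intro j hj
      rw [hS, Finset.mem_filter]
      refine ⟨Finset.mem_univ _, ?_⟩
      rw [mem_closedBall] at hwi
      linarith [dist_triangle (x j) w (x i), hJw j hj]
    · intro j hj
      rw [mem_closedBall, dist_comm]
      exact hJw j hj
  calc volume (bad x k r ∩ closedBall (x i) r)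
      ≤ volume (⋃ J ∈ S.powersetCard (k + 1), ⋂ j ∈ J, closedBall (x j) r) := measure_mono hsub
    _ ≤ ∑ J ∈ S.powersetCard (k + 1), volume (⋂ j ∈ J, closedBall (x j) r) :=
        measure_biUnion_finset_le _ _
    _ ≤ ∑ J ∈ S.powersetCard (k + 1), (ENNReal.ofReal ((2 * η) ^ (N + 2)) * kap (N + 2)) := by
        refine Finset.sum_le_sum fun J hJ => ?_
        exact KJ_volume hk hr hη J (Finset.mem_powersetCard.1 hJ).2
    _ = ((S.powersetCard (k + 1)).card : ℝ≥0∞) *
          (ENNReal.ofReal ((2 * η) ^ (N + 2)) * kap (N + 2)) := by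
        rw [Finset.sum_const, nsmul_eq_mul]
    _ ≤ _ := by
        refine mul_le_mul_left ?_ _
        have h1 : (S.powersetCard (k + 1)).card ≤ (k * 4 ^ (N + 2)) ^ (k + 1) := by
          rw [Finset.card_powersetCard]
          calc S.card.choose (k + 1) ≤ S.card ^ (k + 1) := Nat.choose_le_pow _ _
            _ ≤ _ := Nat.pow_le_pow_left (near_card hk i) _
        exact_mod_cast h1

end Pool.Agent.H249R2
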