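import Mathlib
import Pool.Agent.H249R2.Caps

set_option autoImplicit false

open MeasureTheory Metric Set
open scoped RealInnerProductSpace ENNReal

namespace Pool.Agent.H249R2

/-- A combination of three points of a convex set. -/
lemma convex_three {d : ℕ} {C : Set (E d)} (hC : Convex ℝ C) {x b e : E d} (hx : x ∈ C)
    (hb : b ∈ C) (he : e ∈ C) {s t : ℝ} (hs : 0 ≤ s) (ht : 0 ≤ t) (hst : s + t ≤ 1) :
    x + s • (b - x) + t • (e - x) ∈ C := by
  have h := hC.sum_mem (t := Finset.univ) (w := ![1 - s - t, s, t]) (z := ![x, b, e])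
    (by
      intro i _
      fin_cases i
      · show (0 : ℝ) ≤ 1 - s - t
        linarith
      · exact hs
      · exact ht)
    (by
      simp [Fin.sum_univ_three]
      ring)
    (by
      intro i _
      fin_cases i
      · exact hx
      · exact hb
      · exact he)
  rw [Fin.sum_univ_three] at h
  simp only [Matrix.cons_val_zero, Matrix.cons_val_one, Matrix.cons_val_two, Matrix.head_cons,
    Matrix.tail_cons] at h
  convert h using 1
  simp only [sub_smul, smul_sub, one_smul]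
  abel

theorem box_volume {N n : ℕ} {x : Fin n → E (N + 2)} {D : Set (E (N + 2))}
    (hN : (127 / 128 : ℝ) ^ N ≤ 1 / 4)
    (hD : Convex ℝ D) (hDm : MeasurableSet D) (hball : ∀ i, closedBall (x i) 1 ⊆ D)
    {x₀ b e u : E (N + 2)} (hx : x₀ ∈ convexHull ℝ (range x)) (hb : b ∈ convexHull ℝ (range x))
    (he : e ∈ convexHull ℝ (range x)) (hu : ‖u‖ = 1) (hbu : ⟪b - x₀, u⟫ = (0 : ℝ))
    (hb1 : 1 / 16 ≤ ‖b - x₀‖) (heh : (1 / 4 : ℝ) ≤ ⟪e - x₀, u⟫)
    (heh' : ‖e - x₀‖ ≤ 5 * ⟪e - x₀, u⟫) {δ : ℝ} (hδ : 0 < δ) (hδ' : δ ≤ 1 / 400) :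
    ENNReal.ofReal (δ ^ 2) * (kap N / 4) ≤
      volume (D ∩ closedBall x₀ (√(1 + 125 * δ ^ 2)) ∩
        {w | 0 < ⟪w - x₀, u⟫ ∧ ⟪w - x₀, u⟫ < 1 / 4}) := by
  set h := ⟪e - x₀, u⟫ with hh
  have hh0 : 0 < h := by linarith
  set nb := ‖b - x₀‖ with hnb
  have hnb0 : 0 < nb := by linarith
  obtain ⟨v, hv⟩ : ∃ v : E (N + 2), v = nb⁻¹ • (b - x₀) := ⟨_, rfl⟩
  have hv1 : ‖v‖ = 1 := by
    rw [hv, norm_smul, norm_inv, hnb, norm_norm, inv_mul_cancel₀]
    rw [← hnb]; exact hnb0.ne'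
  have hvu : ⟪v, u⟫ = (0 : ℝ) := by rw [hv, inner_smul_left, hbu, mul_zero]
  have hbv : b - x₀ = nb • v := by rw [hv, smul_smul, mul_inv_cancel₀ hnb0.ne', one_smul]
  obtain ⟨g, hg⟩ : ∃ g : E (N + 2), g = h⁻¹ • (e - x₀) := ⟨_, rfl⟩
  have hgu : ⟪g, u⟫ = (1 : ℝ) := by
    rw [hg, inner_smul_left, ← hh]
    simp only [conj_trivial]
    exact inv_mul_cancel₀ hh0.ne'
  have hg5 : ‖g‖ ≤ 5 := by
    rw [hg, norm_smul, norm_inv, Real.norm_of_nonneg hh0.le, inv_mul_le_iff₀ hh0]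
    linarith
  have heg : e - x₀ = h • g := by rw [hg, smul_smul, mul_inv_cancel₀ hh0.ne', one_smul]
  set gv : ℝ := ⟪g, v⟫ with hgv
  have hgv5 : |gv| ≤ 5 := by
    calc |gv| ≤ ‖g‖ * ‖v‖ := abs_real_inner_le_norm _ _
      _ ≤ 5 := by rw [hv1, mul_one]; exact hg5
  obtain ⟨gp, hgp⟩ : ∃ gp : E (N + 2), gp = g - gv • v := ⟨_, rfl⟩
  have hgpu : ⟪gp, u⟫ = (1 : ℝ) := by
    rw [hgp, inner_sub_left, inner_smul_left, hvu, hgu]; simp
  have hgpv : ⟪v, gp⟫ = (0 : ℝ) := by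
    rw [hgp, inner_sub_right, inner_smul_right, real_inner_self_eq_norm_sq, hv1, real_inner_comm,
      ← hgv]; ring
  set γ := ‖gp‖ with hγ
  have hγ1 : 1 ≤ γ := by
    have := real_inner_le_norm gp u
    rw [hgpu, hu, mul_one] at this
    exact this
  have hγ0 : 0 < γ := by linarith
  obtain ⟨v₁, hv₁⟩ : ∃ v₁ : E (N + 2), v₁ = γ⁻¹ • gp := ⟨_, rfl⟩
  have hv₁1 : ‖v₁‖ = 1 := by
    rw [hv₁, norm_smul, norm_inv, hγ, norm_norm, inv_mul_cancel₀]
    rw [← hγ]; exact hγ0.ne'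
  have hvv₁ : ⟪v, v₁⟫ = (0 : ℝ) := by rw [hv₁, inner_smul_right, hgpv, mul_zero]
  have hgpv₁ : gp = γ • v₁ := by rw [hv₁, smul_smul, mul_inv_cancel₀ hγ0.ne', one_smul]
  obtain ⟨B, hB0, hB1⟩ := exists_frame v v₁ hv1 hv₁1 hvv₁
  set T := frameMap B x₀ with hT
  set a := iotaAdj B u with ha
  have ha1 : ‖a‖ ≤ 1 := by rw [← hu]; exact norm_iotaAdj_le B u
  set strip : Set (E N) := {z : E N | ‖z‖ ≤ 1 ∧ 0 ≤ ⟪z, a⟫ ∧ ⟪z, a⟫ ≤ (1 / 8 : ℝ)} with hstrip
  have hstripV := volume_strip_ge N hN a ha1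
  set R : Set (ℝ × (ℝ × E N)) := Icc (10 * δ) (11 * δ) ×ˢ (Icc δ (2 * δ) ×ˢ strip) with hR
  have hsub : R ⊆ T ⁻¹' (D ∩ closedBall x₀ (√(1 + 125 * δ ^ 2)) ∩
        {w | 0 < ⟪w - x₀, u⟫ ∧ ⟪w - x₀, u⟫ < 1 / 4}) := by
    rintro ⟨c₀, c₁, z⟩ ⟨hc₀, hc₁, hz1, hz2, hz3⟩
    simp only [mem_Icc] at hc₀ hc₁
    simp only at hz1 hz2 hz3
    set β := c₁ / γ with hβ
    have hβ0 : 0 < β := div_pos (by linarith) hγ0
    have hβ2 : β ≤ 2 * δ := by
      rw [hβ, div_le_iff₀ hγ0]; nlinarith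
    have hβγ : β * γ = c₁ := by rw [hβ, div_mul_cancel₀ _ hγ0.ne']
    have hβgv : |β * gv| ≤ 10 * δ := by
      rw [abs_mul, abs_of_pos hβ0]
      nlinarith [abs_nonneg gv]
    rw [abs_le] at hβgv
    set α := c₀ - β * gv with hα
    have hα0 : 0 ≤ α := by rw [hα]; linarith
    have hα2 : α ≤ 21 * δ := by rw [hα]; linarith
    have hy : x₀ + α • v + β • g = x₀ + c₀ • v + c₁ • v₁ := by
      have : g = gv • v + γ • v₁ := by rw [← hgpv₁, hgp]; abel
      rw [this, ← hβγ]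
      have : c₀ = α + β * gv := by rw [hα]; ring
      rw [this]
      simp only [smul_add, smul_smul, add_smul]
      abel
    have hyC : x₀ + α • v + β • g ∈ convexHull ℝ (range x) := by
      have := convex_three (convex_convexHull ℝ (range x)) hx hb he
        (s := α / nb) (t := β / h) (by positivity) (by positivity) (by
          have h1 : α / nb ≤ 16 * (21 * δ) := by
            rw [div_le_iff₀ hnb0]; nlinarith
          have h2 : β / h ≤ 4 * (2 * δ) := by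
            rw [div_le_iff₀ hh0]; nlinarith
          linarith)
      have e1 : (α / nb) • (b - x₀) = α • v := by
        rw [hbv, smul_smul, div_mul_cancel₀ _ hnb0.ne']
      have e2 : (β / h) • (e - x₀) = β • g := by
        rw [heg, smul_smul, div_mul_cancel₀ _ hh0.ne']
      rw [e1, e2] at this
      exact this
    have hTe : T (c₀, (c₁, z)) = (x₀ + α • v + β • g) + iota B z := by
      rw [hT, frameMap_eq, hB0, hB1, hy]
    have hlev : ⟪T (c₀, (c₁, z)) - x₀, u⟫ = β + ⟪z, a⟫ := by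
      rw [hTe, show x₀ + α • v + β • g + iota B z - x₀ = α • v + β • g + iota B z by abel,
        inner_add_left, inner_add_left, inner_smul_left, inner_smul_left, hvu, hgu, inner_iota]
      simp [ha]
    refine ⟨⟨?_, ?_⟩, ?_, ?_⟩
    · rw [hTe]
      exact hull_ball hD hball hyC (by rw [iota_norm]; exact hz1)
    · rw [mem_closedBall, dist_eq_norm]
      refine Real.le_sqrt_of_sq_le ?_
      rw [hT, frameMap_eq, show x₀ + c₀ • B 0 + c₁ • B 1 + iota B z - x₀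
        = c₀ • B 0 + c₁ • B 1 + iota B z by abel, norm_frame_sq]
      nlinarith [norm_nonneg z]
    · rw [hlev]; linarith
    · rw [hlev]; linarith
  have hmeas : MeasurableSet (D ∩ closedBall x₀ (√(1 + 125 * δ ^ 2)) ∩
        {w | 0 < ⟪w - x₀, u⟫ ∧ ⟪w - x₀, u⟫ < 1 / 4}) := by
    have hc : Continuous (fun w : E (N + 2) => ⟪w - x₀, u⟫) := by fun_prop
    refine (hDm.inter measurableSet_closedBall).inter ?_
    exact ((isOpen_lt continuous_const hc).inter (isOpen_lt hc continuous_const)).measurableSet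
  rw [← (measurePreserving_frameMap B x₀).measure_preimage hmeas.nullMeasurableSet]
  refine le_trans ?_ (measure_mono hsub)
  rw [hR, Measure.prod_prod, Measure.prod_prod, Real.volume_Icc, Real.volume_Icc]
  have e1 : 11 * δ - 10 * δ = δ := by ring
  have e2 : 2 * δ - δ = δ := by ring
  rw [e1, e2, pow_two, ENNReal.ofReal_mul hδ.le, mul_assoc]
  gcongr

end Pool.Agent.H249R2
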