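import Mathlib
import Pool.Agent.H249R2.Box
import Pool.Agent.H249R2.Bad

set_option autoImplicit false

open MeasureTheory Metric Set
open scoped RealInnerProductSpace ENNReal

namespace Pool.Agent.H249R2

/-- The size of the small box. -/
noncomputable def dl (k : ℕ) : ℝ := (1 / 4) ^ (k + 1) / 48

/-- The radius of the slightly enlarged balls. -/
noncomputable def rad (k : ℕ) : ℝ := √(1 + 125 * dl k ^ 2)

lemma dl_pos (k : ℕ) : 0 < dl k := by unfold dl; positivity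

lemma dl_le (k : ℕ) (hk : 1 ≤ k) : dl k ≤ 1 / 400 := by
  unfold dl
  have h : ((1 : ℝ) / 4) ^ (k + 1) ≤ (1 / 4) ^ 2 :=
    pow_le_pow_of_le_one (by norm_num) (by norm_num) (by omega)
  rw [div_le_iff₀ (by norm_num)]
  refine h.trans (by norm_num)

lemma rad_sq (k : ℕ) : rad k ^ 2 = 1 + 125 * dl k ^ 2 := by
  unfold rad
  exact Real.sq_sqrt (by positivity)

lemma rad_le (k : ℕ) (hk : 1 ≤ k) : rad k ≤ 3 / 2 := by
  have h0 := dl_pos k
  have h1 := dl_le k hk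
  have h2 := rad_sq k
  refine le_of_sq_le_sq ?_ (by norm_num)
  rw [h2]; nlinarith

theorem fat_volume {N n k : ℕ} (hk1 : 1 ≤ k) {x : Fin n → E (N + 2)} {D : Set (E (N + 2))}
    (hN : (127 / 128 : ℝ) ^ N ≤ 1 / 4)
    (hκ : 4 * (2 + 2 * (k : ℝ) + (k : ℝ) ^ (k + 1)) / dl k ^ 2 * kr (N + 1) ≤ kr N)
    (hκ' : 1 * kr (N + 1 + 1) ≤ kr (N + 1))
    (hD : Convex ℝ D) (hDm : MeasurableSet D) (hball : ∀ i, closedBall (x i) 1 ⊆ D)
    (hk : ∀ (w : E (N + 2)) (J : Finset (Fin n)), (∀ j ∈ J, dist (x j) w < 1) → J.card ≤ k)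
    (i : Fin n)
    {b e u : E (N + 2)} (hb : b ∈ convexHull ℝ (range x))
    (he : e ∈ convexHull ℝ (range x)) (hu : ‖u‖ = 1) (hbu : ⟪b - x i, u⟫ = (0 : ℝ))
    (hb1 : 1 / 16 ≤ ‖b - x i‖) (heh : (1 / 4 : ℝ) ≤ ⟪e - x i, u⟫)
    (heh' : ‖e - x i‖ ≤ 5 * ⟪e - x i, u⟫) :
    ENNReal.ofReal ((2 + 2 * (k : ℝ)) * kr (N + 1)) ≤
      volume ((D ∩ closedBall (x i) (rad k) ∩
        {w | 0 < ⟪w - x i, u⟫ ∧ ⟪w - x i, u⟫ < 1 / 4}) \ bad x k (rad k)) := by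
  set W := D ∩ closedBall (x i) (rad k) ∩
        {w | 0 < ⟪w - x i, u⟫ ∧ ⟪w - x i, u⟫ < 1 / 4} with hW
  have hδ := dl_pos k
  have hδ' := dl_le k hk1
  have h1 : ENNReal.ofReal (dl k ^ 2) * (kap N / 4) ≤ volume W :=
    box_volume hN hD hDm hball (subset_convexHull _ _ ⟨i, rfl⟩) hb he hu hbu hb1 heh heh' hδ hδ'
  have h2 : W ⊆ (W \ bad x k (rad k)) ∪ (bad x k (rad k) ∩ closedBall (x i) (rad k)) := by
    intro w hw
    by_cases h : w ∈ bad x k (rad k)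
    · exact Or.inr ⟨h, hw.1.2⟩
    · exact Or.inl ⟨hw, h⟩
  have h3 := bad_volume hk i (r := rad k) (η := 12 * dl k)
    (by rw [rad_sq]; nlinarith) (by positivity) (rad_le k hk1)
  have h4 : ((((k * 4 ^ (N + 2)) ^ (k + 1) : ℕ) : ℝ≥0∞) *
        (ENNReal.ofReal ((2 * (12 * dl k)) ^ (N + 2)) * kap (N + 2))) ≤
        ENNReal.ofReal ((k : ℝ) ^ (k + 1) * kr (N + 2)) := by
    rw [kap_eq, ← ENNReal.ofReal_natCast, ← ENNReal.ofReal_mul (by positivity),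
      ← ENNReal.ofReal_mul (by positivity)]
    refine ENNReal.ofReal_le_ofReal ?_
    rw [← mul_assoc]
    refine mul_le_mul_of_nonneg_right ?_ (kr_pos _).le
    push_cast
    have e1 : 2 * (12 * dl k) = (1 / 4) ^ (k + 1) * (1 / 2) := by unfold dl; ring
    rw [e1, mul_pow, mul_pow]
    have e2 : ((4 : ℝ) ^ (N + 2)) ^ (k + 1) * ((1 / 4) ^ (k + 1)) ^ (N + 2) = 1 := by
      rw [← pow_mul, ← pow_mul, mul_comm (k + 1) (N + 2), ← mul_pow]
      norm_num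
    have e3 : ((1 : ℝ) / 2) ^ (N + 2) ≤ 1 := pow_le_one₀ (by norm_num) (by norm_num)
    calc (k : ℝ) ^ (k + 1) * ((4 : ℝ) ^ (N + 2)) ^ (k + 1) *
          (((1 / 4) ^ (k + 1)) ^ (N + 2) * (1 / 2) ^ (N + 2))
        = (k : ℝ) ^ (k + 1) * (((4 : ℝ) ^ (N + 2)) ^ (k + 1) * ((1 / 4) ^ (k + 1)) ^ (N + 2))
            * (1 / 2) ^ (N + 2) := by ring
      _ = (k : ℝ) ^ (k + 1) * (1 / 2) ^ (N + 2) := by rw [e2, mul_one]
      _ ≤ (k : ℝ) ^ (k + 1) * 1 := by gcongr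
      _ = _ := mul_one _
  have h5 : volume W ≤ volume (W \ bad x k (rad k)) +
      ENNReal.ofReal ((k : ℝ) ^ (k + 1) * kr (N + 2)) :=
    (measure_mono h2).trans ((measure_union_le _ _).trans (by gcongr; exact h3.trans h4))
  have h6 : ENNReal.ofReal ((2 + 2 * (k : ℝ)) * kr (N + 1)) +
      ENNReal.ofReal ((k : ℝ) ^ (k + 1) * kr (N + 2)) ≤ ENNReal.ofReal (dl k ^ 2) * (kap N / 4) := by
    have e4 : kap N / 4 = ENNReal.ofReal (kr N / 4) := by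
      rw [kap_eq, ENNReal.ofReal_div_of_pos (by norm_num)]; simp
    have k1 := kr_pos (N + 1)
    have k2 := kr_pos (N + 2)
    rw [e4, ← ENNReal.ofReal_mul (by positivity), ← ENNReal.ofReal_add (by positivity)
      (by positivity)]
    refine ENNReal.ofReal_le_ofReal ?_
    have h7 : 4 * (2 + 2 * (k : ℝ) + (k : ℝ) ^ (k + 1)) * kr (N + 1) ≤ dl k ^ 2 * kr N := by
      have := mul_le_mul_of_nonneg_left hκ (sq_nonneg (dl k))
      calc 4 * (2 + 2 * (k : ℝ) + (k : ℝ) ^ (k + 1)) * kr (N + 1)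
          = dl k ^ 2 * (4 * (2 + 2 * (k : ℝ) + (k : ℝ) ^ (k + 1)) / dl k ^ 2 * kr (N + 1)) := by
            field_simp
        _ ≤ _ := this
    have h8 : (k : ℝ) ^ (k + 1) * kr (N + 2) ≤ (k : ℝ) ^ (k + 1) * kr (N + 1) := by
      rw [one_mul] at hκ'
      exact mul_le_mul_of_nonneg_left hκ' (by positivity)
    nlinarith
  have h9 := (h6.trans h1).trans h5
  exact (ENNReal.add_le_add_iff_right ENNReal.ofReal_ne_top).1 h9

end Pool.Agent.H249R2
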