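import Mathlib
import Pool.Agent.H249R2.Fat

set_option autoImplicit false

open MeasureTheory Metric Set
open scoped RealInnerProductSpace ENNReal

namespace Pool.Agent.H249R2

lemma lev_combo {d : ℕ} (p u y z : E d) (t : ℝ) :
    lev p u (y + t • (z - y)) = lev p u y + t * (lev p u z - lev p u y) := by
  unfold lev
  rw [← inner_sub_left, show z - p - (y - p) = z - y by abel,
    show y + t • (z - y) - p = (y - p) + t • (z - y) by abel, inner_add_left, inner_smul_left]
  simp

lemma lev_axis {d : ℕ} (p u : E d) (hu : ‖u‖ = 1) (s : ℝ) : lev p u (p + s • u) = s := by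
  unfold lev
  rw [add_sub_cancel_left, inner_smul_left, real_inner_self_eq_norm_sq, hu]
  simp

lemma off_combo {d : ℕ} (p u y z : E d) (t : ℝ) :
    off p u (y + t • (z - y)) = off p u y + t • (off p u z - off p u y) := by
  unfold off
  rw [lev_combo]
  simp only [smul_sub, add_smul, mul_smul, sub_smul]
  abel

lemma off_axis {d : ℕ} (p u : E d) (hu : ‖u‖ = 1) (s : ℝ) : off p u (p + s • u) = 0 := by
  unfold off
  rw [lev_axis p u hu s]
  abel

lemma continuous_off {d : ℕ} (p u : E d) : Continuous (off p u) := by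
  unfold off lev; fun_prop

lemma combo_mem {d : ℕ} {C : Set (E d)} (hC : Convex ℝ C) {y z : E d} (hy : y ∈ C) (hz : z ∈ C)
    {t : ℝ} (h0 : 0 ≤ t) (h1 : t ≤ 1) : y + t • (z - y) ∈ C := by
  have h := hC hy hz (by linarith : 0 ≤ 1 - t) h0 (by ring)
  convert h using 1
  rw [smul_sub, sub_smul, one_smul]; abel

lemma sub_eq_lev_off {d : ℕ} (p u y z : E d) :
    y - z = (lev p u y - lev p u z) • u + (off p u y - off p u z) := by
  unfold off
  rw [sub_smul]; abel

/-- The geometric input for the middle part. -/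
theorem exists_wide {d n : ℕ} {x : Fin n → E d} {p u : E d} {L : ℝ} (hu : ‖u‖ = 1)
    (hL : 0 < L) (hp : p ∈ convexHull ℝ (range x)) (hq : p + L • u ∈ convexHull ℝ (range x))
    (hlev : ∀ i, 0 ≤ lev p u (x i) ∧ lev p u (x i) ≤ L) (r : Fin n)
    (hr : 1 / 2 < ‖off p u (x r)‖) :
    ∃ s₀ s₁ : ℝ, 0 ≤ s₀ ∧ s₁ ≤ L ∧ s₀ ≤ lev p u (x r) ∧ lev p u (x r) ≤ s₁ ∧ L / 2 ≤ s₁ - s₀ ∧
      (∀ i, lev p u (x i) < s₀ → ‖off p u (x i)‖ ≤ 1 / 2) ∧
      (∀ i, s₁ < lev p u (x i) → ‖off p u (x i)‖ ≤ 1 / 2) ∧
      (∀ s, s₀ ≤ s → s ≤ s₁ → ∃ y ∈ convexHull ℝ (range x), lev p u y = s ∧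
        1 / 8 ≤ ‖off p u y‖) := by
  set C := convexHull ℝ (range x) with hC
  have hCc : Convex ℝ C := convex_convexHull ℝ _
  have hCcomp : IsCompact C := (Set.finite_range x).isCompact_convexHull (𝕜 := ℝ)
  have hClev : ∀ y ∈ C, 0 ≤ lev p u y ∧ lev p u y ≤ L := by
    have h1 : C ⊆ {y | 0 ≤ lev p u y ∧ lev p u y ≤ L} := by
      refine convexHull_min ?_ ?_
      · rintro _ ⟨i, rfl⟩
        exact hlev i
      · intro y hy z hz a b ha hb hab
        have e : a • y + b • z = y + b • (z - y) := by
          rw [show a = 1 - b by linarith, sub_smul, one_smul, smul_sub]; abel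
        simp only [mem_ofPred_eq] at hy hz ⊢
        rw [e, lev_combo]
        have : b ≤ 1 := by linarith
        constructor
        · nlinarith
        · nlinarith
    exact fun y hy => h1 hy
  set G := C ∩ {y | 1 / 4 ≤ ‖off p u y‖} with hG
  have hGc : IsCompact G := by
    refine hCcomp.inter_right ?_
    exact isClosed_le continuous_const (continuous_off p u).norm
  have hxr : x r ∈ C := subset_convexHull _ _ ⟨r, rfl⟩
  have hrG : x r ∈ G := ⟨hxr, by simp only [mem_ofPred_eq]; linarith⟩
  obtain ⟨yL, hyL, hyLmin⟩ := hGc.exists_isMinOn ⟨_, hrG⟩ (continuous_lev p u).continuousOn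
  obtain ⟨yR, hyR, hyRmax⟩ := hGc.exists_isMaxOn ⟨_, hrG⟩ (continuous_lev p u).continuousOn
  have hmin : ∀ y ∈ G, lev p u yL ≤ lev p u y := fun y hy => isMinOn_iff.1 hyLmin y hy
  have hmax : ∀ y ∈ G, lev p u y ≤ lev p u yR := fun y hy => isMaxOn_iff.1 hyRmax y hy
  have hlp : lev p u p = 0 := by simp [lev]
  have hop : off p u p = 0 := by unfold off; rw [hlp]; simp
  -- the width
  have hwidth : L / 2 ≤ lev p u yR - lev p u yL := by
    set H := ‖off p u (x r)‖ with hH
    set t := 1 / (4 * H) with ht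
    have hH0 : 0 < H := by linarith
    have ht0 : 0 ≤ t := by positivity
    have ht1 : t ≤ 1 / 2 := by
      rw [ht, div_le_iff₀ (by positivity)]; linarith
    have htH : t * H = 1 / 4 := by rw [ht]; field_simp
    have h1 := hmin (p + t • (x r - p)) ⟨combo_mem hCc hp hxr ht0 (by linarith), by
      simp only [mem_ofPred_eq]
      rw [off_combo, hop, zero_add, sub_zero, norm_smul, Real.norm_of_nonneg ht0, ← hH, htH]⟩
    have h2 := hmax (p + L • u + t • (x r - (p + L • u)))
      ⟨combo_mem hCc hq hxr ht0 (by linarith), by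
      simp only [mem_ofPred_eq]
      rw [off_combo, off_axis p u hu, zero_add, sub_zero, norm_smul, Real.norm_of_nonneg ht0,
        ← hH, htH]⟩
    rw [lev_combo, hlp] at h1
    rw [lev_combo, lev_axis p u hu] at h2
    nlinarith
  have hLR : lev p u yL < lev p u yR := by linarith
  refine ⟨lev p u yL, lev p u yR, (hClev yL hyL.1).1, (hClev yR hyR.1).2, hmin _ hrG, hmax _ hrG,
    hwidth, ?_, ?_, ?_⟩
  · intro i hi
    by_contra hcon
    push Not at hcon
    have := hmin (x i) ⟨subset_convexHull _ _ ⟨i, rfl⟩, by simp only [mem_ofPred_eq]; linarith⟩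
    linarith
  · intro i hi
    by_contra hcon
    push Not at hcon
    have := hmax (x i) ⟨subset_convexHull _ _ ⟨i, rfl⟩, by simp only [mem_ofPred_eq]; linarith⟩
    linarith
  · intro s hs0 hs1
    have hax : ∀ t, 0 ≤ t → t ≤ L → p + t • u ∈ C := by
      intro t ht0 ht1
      have h := combo_mem hCc hp hq (t := t / L) (by positivity) ((div_le_one hL).2 ht1)
      rw [add_sub_cancel_left, smul_smul, div_mul_cancel₀ _ hL.ne'] at h
      exact h
    have hoL : 1 / 4 ≤ ‖off p u yL‖ := hyL.2
    have hoR : 1 / 4 ≤ ‖off p u yR‖ := hyR.2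
    have hL0 := hClev yL hyL.1
    have hR0 := hClev yR hyR.1
    have hw : 0 < lev p u yR - lev p u yL := by linarith
    rcases le_total s ((lev p u yL + lev p u yR) / 2) with h | h
    · set t := (s - lev p u yL) / (lev p u yR - lev p u yL) with ht
      have ht0 : 0 ≤ t := div_nonneg (by linarith) hw.le
      have ht1 : t ≤ 1 / 2 := by rw [ht, div_le_iff₀ hw]; linarith
      have htw : t * (lev p u yR - lev p u yL) = s - lev p u yL := by
        rw [ht, div_mul_cancel₀ _ hw.ne']
      refine ⟨yL + t • (p + lev p u yR • u - yL),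
        combo_mem hCc hyL.1 (hax _ hR0.1 hR0.2) ht0 (by linarith), ?_, ?_⟩
      · rw [lev_combo, lev_axis p u hu, htw]; ring
      · rw [off_combo, off_axis p u hu, zero_sub, smul_neg]
        have : off p u yL + -(t • off p u yL) = (1 - t) • off p u yL := by
          rw [sub_smul, one_smul]; abel
        rw [this, norm_smul, Real.norm_of_nonneg (by linarith)]
        nlinarith
    · set t := (lev p u yR - s) / (lev p u yR - lev p u yL) with ht
      have ht0 : 0 ≤ t := div_nonneg (by linarith) hw.le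
      have ht1 : t ≤ 1 / 2 := by rw [ht, div_le_iff₀ hw]; linarith
      have htw : t * (lev p u yR - lev p u yL) = lev p u yR - s := by
        rw [ht, div_mul_cancel₀ _ hw.ne']
      refine ⟨yR + t • (p + lev p u yL • u - yR),
        combo_mem hCc hyR.1 (hax _ hL0.1 hL0.2) ht0 (by linarith), ?_, ?_⟩
      · rw [lev_combo, lev_axis p u hu]
        have : t * (lev p u yL - lev p u yR) = -(t * (lev p u yR - lev p u yL)) := by ring
        rw [this, htw]; ring
      · rw [off_combo, off_axis p u hu, zero_sub, smul_neg]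
        have : off p u yR + -(t • off p u yR) = (1 - t) • off p u yR := by
          rw [sub_smul, one_smul]; abel
        rw [this, norm_smul, Real.norm_of_nonneg (by linarith)]
        nlinarith

end Pool.Agent.H249R2
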