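import Mathlib
import Pool.Agent.H249R2.Geo

set_option autoImplicit false

open MeasureTheory Metric Set
open scoped RealInnerProductSpace ENNReal

namespace Pool.Agent.H249R2

theorem center_fat {N n k : ℕ} (hk1 : 1 ≤ k) {x : Fin n → E (N + 2)} {D : Set (E (N + 2))}
    (hN : (127 / 128 : ℝ) ^ N ≤ 1 / 4)
    (hκ : 4 * (2 + 2 * (k : ℝ) + (k : ℝ) ^ (k + 1)) / dl k ^ 2 * kr (N + 1) ≤ kr N)
    (hκ' : 1 * kr (N + 1 + 1) ≤ kr (N + 1))
    (hD : Convex ℝ D) (hDm : MeasurableSet D) (hball : ∀ i, closedBall (x i) 1 ⊆ D)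
    (hk : ∀ (w : E (N + 2)) (J : Finset (Fin n)), (∀ j ∈ J, dist (x j) w < 1) → J.card ≤ k)
    {p u : E (N + 2)} {L s₀ s₁ : ℝ} (hu : ‖u‖ = 1) (hL : 1 ≤ L)
    (hp : p ∈ range x) (hq : p + L • u ∈ range x)
    (hdist : ∀ i j, dist (x i) (x j) ≤ L)
    (h0 : 0 ≤ s₀) (h1 : s₁ ≤ L) (hw : L / 2 ≤ s₁ - s₀)
    (hy : ∀ s, s₀ ≤ s → s ≤ s₁ → ∃ y ∈ convexHull ℝ (range x), lev p u y = s ∧
        1 / 8 ≤ ‖off p u y‖)
    (i : Fin n) (hi0 : s₀ ≤ lev p u (x i)) (hi1 : lev p u (x i) ≤ s₁) :
    ∃ U : Set (E (N + 2)), MeasurableSet U ∧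
      U ⊆ D ∩ {w | s₀ < lev p u w ∧ lev p u w < s₁} ∧
      U ⊆ closedBall (x i) (rad k) \ bad x k (rad k) ∧
      ENNReal.ofReal ((2 + 2 * (k : ℝ)) * kr (N + 1)) ≤ volume U := by
  have hpC : p ∈ convexHull ℝ (range x) := subset_convexHull _ _ hp
  have hqC : p + L • u ∈ convexHull ℝ (range x) := subset_convexHull _ _ hq
  have hax : ∀ t, 0 ≤ t → t ≤ L → p + t • u ∈ convexHull ℝ (range x) := by
    intro t ht0 ht1
    have h := combo_mem (convex_convexHull ℝ (range x)) hpC hqC (t := t / L)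
      (by positivity) ((div_le_one (by linarith)).2 ht1)
    rw [add_sub_cancel_left, smul_smul, div_mul_cancel₀ _ (by linarith : L ≠ 0)] at h
    exact h
  set s := lev p u (x i) with hs
  -- the wide point
  obtain ⟨b, hbC, hbs, hb1⟩ : ∃ b ∈ convexHull ℝ (range x), lev p u b = s ∧
      1 / 16 ≤ ‖b - x i‖ := by
    rcases le_or_gt (1 / 16) (‖off p u (x i)‖) with h | h
    · refine ⟨p + s • u, hax s (by linarith) (by linarith), lev_axis p u hu s, ?_⟩
      rw [sub_eq_lev_off p u, lev_axis p u hu, off_axis p u hu, ← hs]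
      simpa using h
    · obtain ⟨y, hyC, hys, hy8⟩ := hy s hi0 hi1
      refine ⟨y, hyC, hys, ?_⟩
      rw [sub_eq_lev_off p u, hys, ← hs, sub_self, zero_smul, zero_add]
      have := norm_sub_norm_le (off p u y) (off p u (x i))
      linarith
  have hbu : ⟪b - x i, u⟫ = (0 : ℝ) := by
    have : ⟪b - x i, u⟫ = lev p u b - lev p u (x i) := by
      unfold lev; rw [← inner_sub_left]; congr 1; abel
    rw [this, hbs, ← hs, sub_self]
  have hrel : ∀ w : E (N + 2), ⟪w - x i, u⟫ = lev p u w - s := by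
    intro w
    rw [hs]; unfold lev; rw [← inner_sub_left]; congr 1; abel
  have hbadm : MeasurableSet (bad x k (rad k)) := (isClosed_bad x k (rad k)).measurableSet
  rcases le_total s ((s₀ + s₁) / 2) with hcase | hcase
  · -- left half
    obtain ⟨j, hj⟩ := hq
    have hlevq : ⟪(p + L • u) - x i, u⟫ = L - s := by rw [hrel, lev_axis p u hu]
    have hnorm : ‖(p + L • u) - x i‖ ≤ L := by
      rw [← hj, ← dist_eq_norm]; exact hdist _ _
    refine ⟨_, ?_, ?_, ?_, fat_volume hk1 hN hκ hκ' hD hDm hball hk i hbC hqC hu hbu hb1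
      (by rw [hlevq]; linarith) (by rw [hlevq]; linarith)⟩
    · have hc : Continuous (fun w : E (N + 2) => ⟪w - x i, u⟫) := by fun_prop
      refine MeasurableSet.diff ?_ hbadm
      refine (hDm.inter measurableSet_closedBall).inter ?_
      exact ((isOpen_lt continuous_const hc).inter (isOpen_lt hc continuous_const)).measurableSet
    · rintro w ⟨⟨⟨hwD, hwb⟩, hw1, hw2⟩, _⟩
      rw [hrel] at hw1 hw2
      refine ⟨hwD, ?_, ?_⟩
      · linarith
      · linarith
    · rintro w ⟨⟨⟨hwD, hwb⟩, _⟩, hwbad⟩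
      exact ⟨hwb, hwbad⟩
  · -- right half
    obtain ⟨j, hj⟩ := hp
    have hrel' : ∀ w : E (N + 2), ⟪w - x i, -u⟫ = s - lev p u w := by
      intro w
      rw [inner_neg_right, hrel]; ring
    have hlevp : ⟪p - x i, -u⟫ = s := by rw [hrel']; simp [lev]
    have hnorm : ‖p - x i‖ ≤ L := by
      rw [← hj, ← dist_eq_norm]; exact hdist _ _
    refine ⟨_, ?_, ?_, ?_, fat_volume hk1 hN hκ hκ' hD hDm hball hk i (u := -u) hbC hpC
      (by rw [norm_neg, hu]) (by rw [inner_neg_right, hbu, neg_zero]) hb1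
      (by rw [hlevp]; linarith) (by rw [hlevp]; linarith)⟩
    · have hc : Continuous (fun w : E (N + 2) => ⟪w - x i, -u⟫) := by fun_prop
      refine MeasurableSet.diff ?_ hbadm
      refine (hDm.inter measurableSet_closedBall).inter ?_
      exact ((isOpen_lt continuous_const hc).inter (isOpen_lt hc continuous_const)).measurableSet
    · rintro w ⟨⟨⟨hwD, hwb⟩, hw1, hw2⟩, _⟩
      rw [hrel'] at hw1 hw2
      refine ⟨hwD, ?_, ?_⟩
      · linarith
      · linarith
    · rintro w ⟨⟨⟨hwD, hwb⟩, _⟩, hwbad⟩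
      exact ⟨hwb, hwbad⟩

/-- Five disjoint slabs. -/
lemma five_slabs {d : ℕ} {D : Set (E d)} (hDm : MeasurableSet D) (p u : E d) {s₀ s₁ L : ℝ}
    (h0 : 0 ≤ s₀) (h01 : s₀ ≤ s₁) (h1 : s₁ ≤ L) :
    (volume (D ∩ {w | lev p u w < 0}) + volume (D ∩ {w | L ≤ lev p u w})) +
      (volume (D ∩ {w | 0 < lev p u w ∧ lev p u w < s₀}) +
      (volume (D ∩ {w | s₀ < lev p u w ∧ lev p u w < s₁}) +
      volume (D ∩ {w | s₁ < lev p u w ∧ lev p u w < L}))) ≤ volume D := by
  have hc := continuous_lev p u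
  have m1 : MeasurableSet (D ∩ {w | lev p u w < 0}) :=
    hDm.inter (isOpen_lt hc continuous_const).measurableSet
  have m5 : MeasurableSet (D ∩ {w | L ≤ lev p u w}) :=
    hDm.inter (isClosed_le continuous_const hc).measurableSet
  have m2 := measurableSet_slab hDm p u 0 s₀
  have m3 := measurableSet_slab hDm p u s₀ s₁
  have m4 := measurableSet_slab hDm p u s₁ L
  rw [← measure_union _ m4, ← measure_union _ (m3.union m4), ← measure_union _ m5,
    ← measure_union _ (m2.union (m3.union m4))]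
  · refine measure_mono ?_
    rintro w ((h | h) | (h | (h | h))) <;> exact h.1
  · rw [Set.disjoint_left]
    rintro w (h | h) (h' | (h' | h'))
    · have a := h.2; have b := h'.2; simp only [mem_ofPred_eq] at a b; linarith
    · have a := h.2; have b := h'.2; simp only [mem_ofPred_eq] at a b; linarith
    · have a := h.2; have b := h'.2; simp only [mem_ofPred_eq] at a b; linarith
    · have a := h.2; have b := h'.2; simp only [mem_ofPred_eq] at a b; linarith
    · have a := h.2; have b := h'.2; simp only [mem_ofPred_eq] at a b; linarith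
    · have a := h.2; have b := h'.2; simp only [mem_ofPred_eq] at a b; linarith
  · rw [Set.disjoint_left]
    rintro w h h'
    have a := h.2; have b := h'.2; simp only [mem_ofPred_eq] at a b; linarith
  · rw [Set.disjoint_left]
    rintro w h (h' | h')
    · have a := h.2; have b := h'.2; simp only [mem_ofPred_eq] at a b; linarith
    · have a := h.2; have b := h'.2; simp only [mem_ofPred_eq] at a b; linarith
  · rw [Set.disjoint_left]
    rintro w h h'
    have a := h.2; have b := h'.2; simp only [mem_ofPred_eq] at a b; linarith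

/-- Three disjoint slabs. -/
lemma three_slabs {d : ℕ} {D : Set (E d)} (hDm : MeasurableSet D) (p u : E d) {L : ℝ}
    (h0 : 0 ≤ L) :
    (volume (D ∩ {w | lev p u w < 0}) + volume (D ∩ {w | L ≤ lev p u w})) +
      volume (D ∩ {w | 0 < lev p u w ∧ lev p u w < L}) ≤ volume D := by
  have h := five_slabs hDm p u (s₀ := 0) (s₁ := L) (L := L) le_rfl h0 le_rfl
  refine le_trans ?_ h
  gcongr
  exact (le_add_right le_rfl).trans le_add_self

end Pool.Agent.H249R2
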