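import Mathlib
import Pool.Agent.H249R2.Main

set_option autoImplicit false

open MeasureTheory Metric Set
open scoped RealInnerProductSpace ENNReal

namespace Pool.Agent.H249R2

theorem main_volume {N n k : ℕ} (hk1 : 1 ≤ k) (hkn : k + 1 ≤ n)
    {x : Fin n → E (N + 2)} {D : Set (E (N + 2))}
    (hN : (127 / 128 : ℝ) ^ N ≤ 1 / 4)
    (hκ4 : 4 * kr (N + 1) ≤ kr N)
    (hκ : 4 * (2 + 2 * (k : ℝ) + (k : ℝ) ^ (k + 1)) / dl k ^ 2 * kr (N + 1) ≤ kr N)
    (hκ' : 1 * kr (N + 1 + 1) ≤ kr (N + 1))
    (hD : Convex ℝ D) (hDm : MeasurableSet D) (hball : ∀ i, closedBall (x i) 1 ⊆ D)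
    (hk : ∀ (w : E (N + 2)) (J : Finset (Fin n)), (∀ j ∈ J, dist (x j) w < 1) → J.card ≤ k) :
    kap (N + 2) + ENNReal.ofReal (2 * (((n / k : ℕ) : ℝ) - 1) * kr (N + 1)) ≤ volume D := by
  classical
  have hn0 : 0 < n := by omega
  haveI : Nonempty (Fin n) := ⟨⟨0, hn0⟩⟩
  obtain ⟨⟨i₀, j₀⟩, -, hmaxp⟩ := Finset.exists_max_image (Finset.univ : Finset (Fin n × Fin n))
    (fun q => dist (x q.1) (x q.2)) Finset.univ_nonempty
  set L := dist (x i₀) (x j₀) with hLdef
  have hdist : ∀ i j, dist (x i) (x j) ≤ L := fun i j => hmaxp (i, j) (Finset.mem_univ _)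
  have hL : 1 ≤ L := by
    by_contra hcon
    push Not at hcon
    have := hk (x i₀) Finset.univ (fun j _ => lt_of_le_of_lt (hdist j i₀) hcon)
    rw [Finset.card_univ, Fintype.card_fin] at this
    omega
  have hL0 : 0 < L := by linarith
  obtain ⟨p, hpdef⟩ : ∃ p, p = x i₀ := ⟨_, rfl⟩
  obtain ⟨u, hudef⟩ : ∃ u, u = L⁻¹ • (x j₀ - x i₀) := ⟨_, rfl⟩
  have hu : ‖u‖ = 1 := by
    rw [hudef, norm_smul, norm_inv, Real.norm_of_nonneg hL0.le, ← dist_eq_norm, dist_comm,
      ← hLdef, inv_mul_cancel₀ hL0.ne']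
  have hqdef : p + L • u = x j₀ := by
    rw [hudef, hpdef, smul_smul, mul_inv_cancel₀ hL0.ne', one_smul]; abel
  have hp : p ∈ range x := ⟨i₀, hpdef.symm⟩
  have hq : p + L • u ∈ range x := ⟨j₀, hqdef.symm⟩
  have hpC : p ∈ convexHull ℝ (range x) := subset_convexHull _ _ hp
  have hqC : p + L • u ∈ convexHull ℝ (range x) := subset_convexHull _ _ hq
  have hax : ∀ t, 0 ≤ t → t ≤ L → p + t • u ∈ convexHull ℝ (range x) := by
    intro t ht0 ht1
    have h := combo_mem (convex_convexHull ℝ (range x)) hpC hqC (t := t / L)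
      (by positivity) ((div_le_one (by linarith)).2 ht1)
    rw [add_sub_cancel_left, smul_smul, div_mul_cancel₀ _ (by linarith : L ≠ 0)] at h
    exact h
  have hlev : ∀ i, 0 ≤ lev p u (x i) ∧ lev p u (x i) ≤ L := by
    intro i
    have h1 : ‖x i - p‖ ≤ L := by
      rw [hpdef, ← dist_eq_norm]; exact hdist _ _
    constructor
    · have h2 : ‖(x i - p) - L • u‖ ≤ L := by
        rw [show x i - p - L • u = x i - (p + L • u) by abel, hqdef, ← dist_eq_norm]
        exact hdist _ _
      have h3 : ‖(x i - p) - L • u‖ ^ 2 ≤ L ^ 2 := pow_le_pow_left₀ (norm_nonneg _) h2 2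
      rw [norm_sub_sq_real, inner_smul_right, norm_smul, hu, Real.norm_of_nonneg hL0.le] at h3
      unfold lev
      nlinarith [sq_nonneg ‖x i - p‖]
    · have := real_inner_le_norm (x i - p) u
      rw [hu, mul_one] at this
      exact this.trans h1
  have hpball : closedBall p 1 ⊆ D := by rw [hpdef]; exact hball i₀
  have hqball : closedBall (p + L • u) 1 ⊆ D := by rw [hqdef]; exact hball j₀
  have hcaps := caps_volume (D := D) hu hpball hqball
  have hK := kr_pos (N + 1)
  set K := kr (N + 1) with hKdef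
  have hkR : (0 : ℝ) < k := by exact_mod_cast hk1
  by_cases hcase : ∀ i, ‖off p u (x i)‖ ≤ 1 / 2
  · -- Case A
    have hchain := chain_volume hD hDm hball hk hκ4 hu hax le_rfl le_rfl Finset.univ
      (fun j _ => hlev j) (fun j _ => hcase j)
    rw [Finset.card_univ, Fintype.card_fin, ← hKdef] at hchain
    have h3 := three_slabs hDm p u hL0.le
    refine le_trans ?_ h3
    refine add_le_add hcaps (le_trans ?_ hchain)
    rw [← ENNReal.ofReal_natCast, ← ENNReal.ofReal_mul (Nat.cast_nonneg _)]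
    refine ENNReal.ofReal_le_ofReal ?_
    have h4 : n / k ≤ (n - 1) / k + 1 := by
      rw [Nat.div_le_iff_le_mul_add_pred hk1]
      have h5 := Nat.lt_mul_div_succ (n - 1) hk1
      have h6 : k * ((n - 1) / k + 1) = k * ((n - 1) / k) + k := by ring
      have h7 : ((n - 1) / k + 1) * k = k * ((n - 1) / k + 1) := by ring
      omega
    have h8 : ((n / k : ℕ) : ℝ) ≤ (((n - 1) / k : ℕ) : ℝ) + 1 := by exact_mod_cast h4
    nlinarith
  · -- Case B
    push Not at hcase
    obtain ⟨r, hr⟩ := hcase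
    obtain ⟨s₀, s₁, hs0, hs1, hrs0, hrs1, hw, hoffL, hoffR, hwide⟩ :=
      exists_wide hu hL0 hpC hqC hlev r hr
    have hs01 : s₀ ≤ s₁ := hrs0.trans hrs1
    set A := Finset.univ.filter (fun i => lev p u (x i) < s₀) with hA
    set B := Finset.univ.filter (fun i => s₁ < lev p u (x i)) with hB
    set F := Finset.univ.filter (fun i => s₀ ≤ lev p u (x i) ∧ lev p u (x i) ≤ s₁) with hF
    have hcard : n = A.card + F.card + B.card := by
      have hdisj1 : Disjoint A F := by
        rw [Finset.disjoint_left]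
        intro i hi hi'
        have a := (Finset.mem_filter.1 hi).2
        have b := (Finset.mem_filter.1 hi').2
        linarith [b.1]
      have hdisj2 : Disjoint (A ∪ F) B := by
        rw [Finset.disjoint_left]
        intro i hi hi'
        have b := (Finset.mem_filter.1 hi').2
        rcases Finset.mem_union.1 hi with h | h
        · have a := (Finset.mem_filter.1 h).2
          linarith
        · have a := (Finset.mem_filter.1 h).2
          linarith [a.2]
      rw [← Finset.card_union_of_disjoint hdisj1, ← Finset.card_union_of_disjoint hdisj2]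
      have : (A ∪ F) ∪ B = Finset.univ := by
        ext i
        simp only [hA, hB, hF, Finset.mem_union, Finset.mem_filter, Finset.mem_univ, true_and,
          iff_true]
        rcases lt_or_ge (lev p u (x i)) s₀ with h | h
        · exact Or.inl (Or.inl h)
        · rcases le_or_gt (lev p u (x i)) s₁ with h' | h'
          · exact Or.inl (Or.inr ⟨h, h'⟩)
          · exact Or.inr h'
      rw [this, Finset.card_univ, Fintype.card_fin]
    have hFpos : 1 ≤ F.card := by
      rw [Nat.one_le_iff_ne_zero, ← Nat.pos_iff_ne_zero, Finset.card_pos]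
      exact ⟨r, by rw [hF, Finset.mem_filter]; exact ⟨Finset.mem_univ _, hrs0, hrs1⟩⟩
    have hchL := chain_volume hD hDm hball hk hκ4 hu hax (le_refl (0 : ℝ)) (hs01.trans hs1) A
      (fun j hj => ⟨(hlev j).1, (Finset.mem_filter.1 hj).2.le⟩)
      (fun j hj => hoffL j (Finset.mem_filter.1 hj).2)
    have hchR := chain_volume hD hDm hball hk hκ4 hu hax (hs0.trans hs01) (le_refl L) B
      (fun j hj => ⟨(Finset.mem_filter.1 hj).2.le, (hlev j).2⟩)
      (fun j hj => hoffR j (Finset.mem_filter.1 hj).2)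
    -- the middle part
    have hfat : ∀ i ∈ F, ∃ U : Set (E (N + 2)), MeasurableSet U ∧
        U ⊆ D ∩ {w | s₀ < lev p u w ∧ lev p u w < s₁} ∧
        U ⊆ closedBall (x i) (rad k) \ bad x k (rad k) ∧
        ENNReal.ofReal ((2 + 2 * (k : ℝ)) * kr (N + 1)) ≤ volume U := by
      intro i hi
      have := (Finset.mem_filter.1 hi).2
      exact center_fat hk1 hN hκ hκ' hD hDm hball hk hu hL hp hq hdist hs0 hs1 hw hwide i
        this.1 this.2
    choose! U hUm hUs hUb hUv using hfat
    have hmid := sum_measure_le_mult (volume : Measure (E (N + 2))) F U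
      (D ∩ {w | s₀ < lev p u w ∧ lev p u w < s₁}) k hUm (measurableSet_slab hDm p u s₀ s₁) hUs
      (fun w J hJF hJ => by
        by_contra hcon
        push Not at hcon
        obtain ⟨J', hJ'J, hJ'c⟩ := Finset.exists_subset_card_eq (show k + 1 ≤ J.card by omega)
        obtain ⟨j, hj⟩ : J'.Nonempty := by rw [← Finset.card_pos]; omega
        refine (hUb j (hJF (hJ'J hj)) (hJ j (hJ'J hj))).2 ⟨J', hJ'c, fun i hi => ?_⟩
        have := (hUb i (hJF (hJ'J hi)) (hJ i (hJ'J hi))).1
        rw [mem_closedBall, dist_comm] at this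
        exact this)
    have hmid2 : ENNReal.ofReal ((F.card : ℝ) * ((2 + 2 * (k : ℝ)) * K) / k) ≤
        volume (D ∩ {w | s₀ < lev p u w ∧ lev p u w < s₁}) := by
      rw [ENNReal.ofReal_div_of_pos hkR, ENNReal.ofReal_natCast]
      refine ENNReal.div_le_of_le_mul ?_
      rw [mul_comm (volume _)]
      refine le_trans ?_ hmid
      rw [ENNReal.ofReal_mul (Nat.cast_nonneg _), ENNReal.ofReal_natCast]
      calc (F.card : ℝ≥0∞) * ENNReal.ofReal ((2 + 2 * (k : ℝ)) * K)
          = ∑ i ∈ F, ENNReal.ofReal ((2 + 2 * (k : ℝ)) * K) := by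
            rw [Finset.sum_const, nsmul_eq_mul]
        _ ≤ _ := Finset.sum_le_sum fun i hi => hUv i hi
    have h5 := five_slabs hDm p u hs0 hs01 hs1
    refine le_trans ?_ h5
    refine add_le_add hcaps ?_
    rw [← hKdef, ← ENNReal.ofReal_natCast, ← ENNReal.ofReal_mul (Nat.cast_nonneg _)] at hchL hchR
    refine le_trans ?_ (add_le_add hchL (add_le_add hmid2 hchR))
    rw [← ENNReal.ofReal_add (by positivity) (by positivity),
      ← ENNReal.ofReal_add (by positivity) (by positivity)]
    refine ENNReal.ofReal_le_ofReal ?_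
    have e1 : k * (n / k) ≤ n := Nat.mul_div_le n k
    have e2 : A.card ≤ k * ((A.card - 1) / k) + k := by
      have := Nat.lt_mul_div_succ (A.card - 1) hk1
      have h6 : k * ((A.card - 1) / k + 1) = k * ((A.card - 1) / k) + k := by ring
      omega
    have e3 : B.card ≤ k * ((B.card - 1) / k) + k := by
      have := Nat.lt_mul_div_succ (B.card - 1) hk1
      have h6 : k * ((B.card - 1) / k + 1) = k * ((B.card - 1) / k) + k := by ring
      omega
    have e1' : (k : ℝ) * ((n / k : ℕ) : ℝ) ≤ A.card + F.card + B.card := by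
      have : k * (n / k) ≤ A.card + F.card + B.card := hcard ▸ e1
      exact_mod_cast this
    have e2' : (A.card : ℝ) ≤ k * (((A.card - 1) / k : ℕ) : ℝ) + k := by exact_mod_cast e2
    have e3' : (B.card : ℝ) ≤ k * (((B.card - 1) / k : ℕ) : ℝ) + k := by exact_mod_cast e3
    have e4' : (1 : ℝ) ≤ F.card := by exact_mod_cast hFpos
    set m : ℝ := ((n / k : ℕ) : ℝ) with hm
    set a : ℝ := (((A.card - 1) / k : ℕ) : ℝ) with ha
    set b : ℝ := (((B.card - 1) / k : ℕ) : ℝ) with hb
    set f : ℝ := (F.card : ℝ) with hf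
    have e5 : 2 * (m - 1) ≤ 2 * a + (f * (2 + 2 * k) / k + 2 * b) := by
      have : 2 * a + (f * (2 + 2 * k) / k + 2 * b) =
          (2 * (k * a) + f * (2 + 2 * k) + 2 * (k * b)) / k := by
        field_simp
        ring
      rw [this, le_div_iff₀ hkR]
      have : (k : ℝ) * 1 ≤ k * f := mul_le_mul_of_nonneg_left e4' hkR.le
      nlinarith
    have e6 := mul_le_mul_of_nonneg_right e5 hK.le
    calc 2 * (m - 1) * K ≤ (2 * a + (f * (2 + 2 * k) / k + 2 * b)) * K := e6
      _ = a * (2 * K) + (f * ((2 + 2 * k) * K) / k + b * (2 * K)) := by ring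

end Pool.Agent.H249R2
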