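import Mathlib
import Pool.Agent.H249R2.Geo

set_option autoImplicit false

open MeasureTheory Metric Set
open scoped RealInnerProductSpace ENNReal Pointwise

namespace Pool.Agent.H249R2

lemma norm_sub_sq_lev {d : ℕ} (p u y : E d) (hu : ‖u‖ = 1) (s : ℝ) :
    ‖y - (p + s • u)‖ ^ 2 = (lev p u y - s) ^ 2 + ‖off p u y‖ ^ 2 := by
  rw [← dist_eq_norm, dist_axis_sq p u y hu s]

/-- The cylinder around a segment. -/
lemma volume_cyl {N : ℕ} (a u : E (N + 2)) (hu : ‖u‖ = 1) (l : ℝ) :
    volume {w : E (N + 2) | (0 ≤ lev a u w ∧ lev a u w ≤ l) ∧ ‖off a u w‖ ≤ 1} =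
      ENNReal.ofReal l * kap (N + 1) := by
  obtain ⟨v, hv, huv⟩ := exists_perp u hu
  obtain ⟨B, hB0, hB1⟩ := exists_frame u v hu hv huv
  have hm : MeasurableSet {w : E (N + 2) | (0 ≤ lev a u w ∧ lev a u w ≤ l) ∧ ‖off a u w‖ ≤ 1} := by
    have h1 := continuous_lev a u
    have h2 := continuous_off a u
    exact (((isClosed_le continuous_const h1).inter (isClosed_le h1 continuous_const)).inter
      (isClosed_le h2.norm continuous_const)).measurableSet
  rw [← (measurePreserving_frameMap B a).measure_preimage hm.nullMeasurableSet]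
  have hlev : ∀ s c z, lev a u (frameMap B a (s, (c, z))) = s := by
    intro s c z
    unfold lev
    rw [frameMap_eq, hB0, hB1]
    have : a + s • u + c • v + iota B z - a = s • u + c • v + iota B z := by abel
    rw [this, inner_add_left, inner_add_left, inner_smul_left, inner_smul_left,
      real_inner_self_eq_norm_sq, hu, real_inner_comm, huv]
    have := inner_iota_zero B z
    rw [hB0] at this
    rw [this]
    simp
  have hoff : ∀ s c z, ‖off a u (frameMap B a (s, (c, z)))‖ ^ 2 = c ^ 2 + ‖z‖ ^ 2 := by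
    intro s c z
    have h1 : off a u (frameMap B a (s, (c, z))) = (0 : ℝ) • B 0 + c • B 1 + iota B z := by
      unfold off
      rw [hlev, frameMap_eq, hB0, zero_smul]
      abel
    rw [h1, norm_frame_sq]; ring
  have hset : frameMap B a ⁻¹' {w : E (N + 2) | (0 ≤ lev a u w ∧ lev a u w ≤ l) ∧
      ‖off a u w‖ ≤ 1} = Icc 0 l ×ˢ ballP N := by
    ext ⟨s, c, z⟩
    simp only [mem_preimage, mem_ofPred_eq, hlev, mem_prod, mem_Icc, ballP]
    rw [← hoff s c z, sq_le_one_iff₀ (norm_nonneg _)]
  rw [hset, Measure.prod_prod, Real.volume_Icc, volume_ballP, sub_zero]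

theorem volume_sausage_le {N : ℕ} (a b : E (N + 2)) :
    volume (segment ℝ a b + closedBall (0 : E (N + 2)) 1) ≤
      kap (N + 2) + ENNReal.ofReal (dist a b) * kap (N + 1) := by
  rcases eq_or_ne a b with h | h
  · subst h
    rw [segment_same, dist_self, ENNReal.ofReal_zero, zero_mul, add_zero,
      singleton_add_closedBall, add_zero, kap_eq_center]
  · have hl : 0 < dist a b := dist_pos.2 h
    set l := dist a b with hldef
    obtain ⟨u, hudef⟩ : ∃ u, u = l⁻¹ • (b - a) := ⟨_, rfl⟩
    have hu : ‖u‖ = 1 := by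
      rw [hudef, norm_smul, norm_inv, Real.norm_of_nonneg hl.le, ← dist_eq_norm, dist_comm,
        ← hldef, inv_mul_cancel₀ hl.ne']
    have hb : b = a + l • u := by
      rw [hudef, smul_smul, mul_inv_cancel₀ hl.ne', one_smul]; abel
    have hc := continuous_lev a u
    have hsub : segment ℝ a b + closedBall (0 : E (N + 2)) 1 ⊆
        ((closedBall a 1 ∩ {w | lev a u w < 0}) ∪
          ((fun w => w - l • u) ⁻¹' (closedBall a 1 ∩ {w | 0 < lev a u w}))) ∪
        {w : E (N + 2) | (0 ≤ lev a u w ∧ lev a u w ≤ l) ∧ ‖off a u w‖ ≤ 1} := by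
      rintro _ ⟨y, hy, z, hz, rfl⟩
      rw [segment_eq_image'] at hy
      obtain ⟨θ, ⟨hθ0, hθ1⟩, rfl⟩ := hy
      have hz1 : ‖z‖ ≤ 1 := by simpa using hz
      set w := a + θ • (b - a) + z with hw
      obtain ⟨t, ht⟩ : ∃ t, t = θ * l := ⟨_, rfl⟩
      have ht0 : 0 ≤ t := by rw [ht]; positivity
      have ht1 : t ≤ l := by rw [ht]; nlinarith
      have hwt : w - (a + t • u) = z := by
        rw [hw, ht, hb, add_sub_cancel_left, smul_smul]; abel
      have h1 := norm_sub_sq_lev a u w hu t
      rw [hwt] at h1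
      have h2 : (lev a u w - t) ^ 2 + ‖off a u w‖ ^ 2 ≤ 1 := by
        rw [← h1]; nlinarith [norm_nonneg z]
      rcases lt_or_ge (lev a u w) 0 with h3 | h3
      · refine Or.inl (Or.inl ⟨?_, h3⟩)
        rw [mem_closedBall, dist_eq_norm]
        have h4 := norm_sub_sq_lev a u w hu 0
        rw [zero_smul, add_zero] at h4
        have h5 : ‖w - a‖ ^ 2 ≤ 1 := by rw [h4]; nlinarith
        exact (sq_le_one_iff₀ (norm_nonneg _)).1 h5
      · rcases le_or_gt (lev a u w) l with h4 | h4
        · refine Or.inr ⟨⟨h3, h4⟩, ?_⟩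
          have h5 : ‖off a u w‖ ^ 2 ≤ 1 := by nlinarith [sq_nonneg (lev a u w - t)]
          exact (sq_le_one_iff₀ (norm_nonneg _)).1 h5
        · refine Or.inl (Or.inr ⟨?_, ?_⟩)
          · rw [mem_closedBall, dist_eq_norm]
            have h5 := norm_sub_sq_lev a u w hu l
            have h6 : ‖w - l • u - a‖ ^ 2 ≤ 1 := by
              rw [show w - l • u - a = w - (a + l • u) by abel, h5]; nlinarith
            exact (sq_le_one_iff₀ (norm_nonneg _)).1 h6
          · simp only [mem_ofPred_eq]
            have := lev_add_smul a u w hu (-l)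
            rw [neg_smul, ← sub_eq_add_neg] at this
            rw [this]; linarith
    have m2 : MeasurableSet (closedBall a 1 ∩ {w | 0 < lev a u w}) :=
      measurableSet_closedBall.inter (isOpen_lt continuous_const hc).measurableSet
    calc volume (segment ℝ a b + closedBall (0 : E (N + 2)) 1)
        ≤ (volume (closedBall a 1 ∩ {w | lev a u w < 0}) +
          volume ((fun w => w - l • u) ⁻¹' (closedBall a 1 ∩ {w | 0 < lev a u w}))) +
          volume {w : E (N + 2) | (0 ≤ lev a u w ∧ lev a u w ≤ l) ∧ ‖off a u w‖ ≤ 1} :=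
          (measure_mono hsub).trans ((measure_union_le _ _).trans (by
            gcongr; exact measure_union_le _ _))
      _ = volume ((closedBall a 1 ∩ {w | lev a u w < 0}) ∪ (closedBall a 1 ∩ {w | 0 < lev a u w}))
          + ENNReal.ofReal l * kap (N + 1) := by
          rw [volume_cyl a u hu l]
          congr 1
          have e1 : volume ((fun w => w - l • u) ⁻¹' (closedBall a 1 ∩ {w | 0 < lev a u w})) =
              volume (closedBall a 1 ∩ {w | 0 < lev a u w}) := by
            simp only [sub_eq_add_neg]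
            rw [measure_preimage_add_right]
          rw [e1, ← measure_union _ m2]
          rw [Set.disjoint_left]
          rintro w h5 h6
          have h7 := h5.2; have h8 := h6.2
          simp only [mem_ofPred_eq] at h7 h8
          linarith
      _ ≤ kap (N + 2) + ENNReal.ofReal l * kap (N + 1) := by
          gcongr
          rw [← kap_eq_center (N + 2) a]
          refine measure_mono ?_
          rintro w (h | h) <;> exact h.1

end Pool.Agent.H249R2
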